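import Pool.Agent.helper45.CR.SForms

/-!
# The Webster data on `M`, the Levi form and the first Chern class
-/

open Filter Topology Set Metric
open scoped ContDiff ComplexConjugate

namespace Pool.Agent.helper65.CR

/-! ### The metric equation on the sphere -/

theorem fderiv_NR (q u : ℂ × ℂ) :
    ((fderiv ℝ NR q u : ℝ) : ℂ) = 6 * (u.2 * conj q.2 + q.2 * conj u.2) := by
  have h1 : HasFDerivAt NR (fderiv ℝ NR q) q := (diffAt cd_NR q).hasFDerivAt
  have h2 : HasFDerivAt (fun p => ((NR p : ℝ) : ℂ)) (Complex.ofRealCLM.comp (fderiv ℝ NR q)) q :=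
    Complex.ofRealCLM.hasFDerivAt.comp q h1
  have h3 : (fun p => ((NR p : ℝ) : ℂ)) = Nf := by
    funext p
    exact (Nf_eq p).symm
  rw [h3] at h2
  have h4 := fd_Nf (q := q) (u := u)
  rw [h2.fderiv] at h4
  exact h4

theorem conj_omX (q : ℂ × ℂ) : conj (omX q) = 6 * q.1 * q.2 * (Nf q)⁻¹ - conj q.2 := by
  unfold omX
  simp only [map_sub, map_mul, Complex.conj_conj, conj_Nf_inv, Complex.conj_ofNat]

theorem conj_omZ (q : ℂ × ℂ) : conj (omZ q) = 2 * Complex.I - 3 * Complex.I * q.2 * conj q.2 *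
    (Nf q)⁻¹ - 18 * Complex.I * q.1 * q.2 ^ 2 * (Nf q)⁻¹ ^ 2 := by
  unfold omZ
  simp only [map_add, map_mul, map_neg, map_pow, Complex.conj_conj, conj_Nf_inv,
    Complex.conj_ofNat, Complex.conj_I]
  ring

theorem conj_muF' (q v : ℂ × ℂ) : conj (muF' q v) = muF q v := by
  rw [← conj_muF, Complex.conj_conj]

/-- The metric equation `dN = N (ω + ω̄)`. -/
theorem metric_S {q : ℂ × ℂ} (hq : q ∈ S) (ζ : ℂ) (x : ℝ) :
    ((fderiv ℝ NR q (tv q ζ x) : ℝ) : ℂ) =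
      NR q * (omF q (tv q ζ x) + conj (omF q (tv q ζ x))) := by
  have hI := Complex.I_sq
  rw [fderiv_NR, ← Nf_eq, omF_apply]
  simp only [map_add, map_mul, Complex.conj_conj, conj_omX, conj_omZ, conj_muF, conj_muF',
    conj_thC]
  rw [muF_apply, muF'_apply, lamF_tv hq, lamF'_tv hq, thC_tv hq]
  have hX : omX q = 6 * conj q.1 * conj q.2 * (Nf q)⁻¹ - q.2 := rfl
  have hZ : omZ q = -2 * Complex.I + 3 * Complex.I * q.2 * conj q.2 * (Nf q)⁻¹ +
    18 * Complex.I * conj q.1 * conj q.2 ^ 2 * (Nf q)⁻¹ ^ 2 := rfl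
  have hb : bet q = -3 * Complex.I * conj q.2 * (Nf q)⁻¹ := rfl
  have hb' : bet' q = 3 * Complex.I * q.2 * (Nf q)⁻¹ := rfl
  have hk : Nf q * (Nf q)⁻¹ = 1 := mul_inv_cancel₀ (Nf_ne q)
  rw [hX, hZ, hb, hb']
  simp only [tv, map_add, map_mul, Complex.conj_conj, Complex.conj_I, Complex.conj_ofReal]
  generalize (Nf q)⁻¹ = k at *
  generalize Nf q = N at *
  generalize conj q.1 = A at *
  generalize conj q.2 = B at *
  generalize q.1 = a at *
  generalize q.2 = b at *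
  generalize conj ζ = z at *
  linear_combination (-6 * (A * B * ζ + a * b * z)) * hk

/-! ### Invariance -/

section Inv

variable {w : ℂ} (hw : w ^ 3 = 1) (q v : ℂ × ℂ)

theorem Nf_rot (h : w * conj w = 1) : Nf (w * q.1, w * q.2) = Nf q := by
  simp only [Nf, map_mul]
  linear_combination (6 * q.2 * conj q.2) * h

theorem lamF_rot : lamF (w * q.1, w * q.2) (w * v.1, w * v.2) = w ^ 2 * lamF q v := by
  simp only [lamF_apply]
  ring

theorem lamF'_rot : lamF' (w * q.1, w * q.2) (w * v.1, w * v.2) = conj w ^ 2 * lamF' q v := by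
  simp only [lamF'_apply, map_mul]
  ring

include hw in
theorem conj_cube : conj w ^ 3 = 1 := by
  rw [← map_pow, hw, map_one]

include hw in
theorem thC_rot : thC (w * q.1, w * q.2) (w * v.1, w * v.2) = thC q v := by
  have h := mul_conj_of_cube hw
  have h' := conj_cube hw
  simp only [thC_apply, lamF_rot, lamF'_rot, map_mul]
  linear_combination (-(Complex.I / 2)) * ((conj q.1 * v.1 + conj q.2 * v.2 -
    q.1 * conj v.1 - q.2 * conj v.2) * h + 2 * q.2 * lamF q v * hw -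
    2 * conj q.2 * lamF' q v * h')

include hw in
theorem thR_rot : thR (w * q.1, w * q.2) (w * v.1, w * v.2) = thR q v := by
  have := thC_rot hw q v
  rw [← thR_apply, ← thR_apply] at this
  exact_mod_cast this

include hw in
theorem conj_eq_sq : conj w = w ^ 2 := by
  have h := mul_conj_of_cube hw
  have hw0 : w ≠ 0 := by
    rintro rfl
    norm_num at hw
  apply mul_left_cancel₀ hw0
  rw [h]
  linear_combination -hw

include hw in
theorem muF_rot : muF (w * q.1, w * q.2) (w * v.1, w * v.2) = w ^ 2 * muF q v := by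
  rw [muF_apply, muF_apply, lamF_rot, thC_rot hw]
  unfold bet
  rw [Nf_rot q (mul_conj_of_cube hw)]
  simp only [map_mul]
  rw [conj_eq_sq hw]
  ring

include hw in
theorem muF'_rot : muF' (w * q.1, w * q.2) (w * v.1, w * v.2) = w * muF' q v := by
  rw [← conj_muF, muF_rot hw, map_mul, conj_muF, map_pow, conj_eq_sq hw]
  linear_combination (w * muF' q v) * hw

include hw in
theorem omF_rot : omF (w * q.1, w * q.2) (w * v.1, w * v.2) = omF q v := by
  rw [omF_apply, omF_apply, muF_rot hw, muF'_rot hw, thC_rot hw]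
  unfold omX omZ
  rw [Nf_rot q (mul_conj_of_cube hw)]
  simp only [map_mul]
  rw [conj_eq_sq hw]
  have h4 : w ^ 6 = 1 := by
    calc w ^ 6 = (w ^ 3) ^ 2 := by ring
      _ = 1 := by rw [hw, one_pow]
  linear_combination (6 * conj q.1 * conj q.2 * (Nf q)⁻¹ * muF q v) * h4 +
    (-q.2 * muF q v + conj q.2 * muF' q v + 3 * Complex.I * q.2 * conj q.2 * (Nf q)⁻¹ *
      thC q v) * hw + (18 * Complex.I * conj q.1 * conj q.2 ^ 2 * (Nf q)⁻¹ ^ 2 * thC q v) * h4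

end Inv

/-- The real form `-Im ω`. -/
noncomputable def sgR (q : ℂ × ℂ) : (ℂ × ℂ) →L[ℝ] ℝ := (-Complex.imCLM).comp (omF q)

theorem cd_sgR : ContDiff ℝ ∞ sgR := contDiff_const.clm_comp cd_omF

theorem sgR_apply (q v : ℂ × ℂ) : sgR q v = -(omF q v).im := rfl

/-- The contact form on `M`. -/
theorem exists_theta : ∃ θ : (Fin 4 → ℂ) → (Fin 4 → ℂ) →L[ℝ] ℝ, ContDiff ℝ ∞ θ ∧
    ∀ q ∈ S, ∀ ζ r, θ (Φ q) (dΦ q (tv q ζ r)) = r + 2 * (q.2 * ζ).im := by
  obtain ⟨θ, h1, h2⟩ := exists_ext cd_thR (fun w hw q _ v => thR_rot hw q v)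
  exact ⟨θ, h1, fun q hq ζ r => by rw [h2 q hq, thR_tv hq]⟩

/-- The form `-Im ω` on `M`. -/
theorem exists_sigma : ∃ σ : (Fin 4 → ℂ) → (Fin 4 → ℂ) →L[ℝ] ℝ, ContDiff ℝ ∞ σ ∧
    ∀ q ∈ S, ∀ ζ r, σ (Φ q) (dΦ q (tv q ζ r)) = -(omF q (tv q ζ r)).im :=
  exists_ext cd_sgR (fun w hw q _ v => by rw [sgR_apply, sgR_apply, omF_rot hw])

theorem isContactForm_of {θ : (Fin 4 → ℂ) → (Fin 4 → ℂ) →L[ℝ] ℝ} (hθ : ContDiff ℝ ∞ θ)
    (h : ∀ q ∈ S, ∀ ζ r, θ (Φ q) (dΦ q (tv q ζ r)) = r + 2 * (q.2 * ζ).im) :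
    IsContactForm M θ where
  smooth := fun _ _ => hθ.contDiffAt
  ker := by
    rintro x ⟨q, hq, rfl⟩ v hv
    obtain ⟨ζ, r, rfl⟩ := (isTangent_iff hq v).mp hv
    rw [h q hq, isHolTangent_iff hq]
    constructor
    · intro h0
      exact ⟨ζ, by rw [dΦ_tv hq, h0]; simp⟩
    · rintro ⟨ζ', h0⟩
      rw [dΦ_tv hq] at h0
      have h1 : ζ • P q + ((r + 2 * (q.2 * ζ).im : ℝ) : ℂ) • PT q =
          ζ' • P q + ((0 : ℝ) : ℂ) • PT q := by
        rw [h0]
        simp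
      exact (P_PT_injective hq h1).2

/-! ### The Webster data near a point -/

section Local

variable {θ : (Fin 4 → ℂ) → (Fin 4 → ℂ) →L[ℝ] ℝ} (hθ : ContDiff ℝ ∞ θ)
  (hθv : ∀ q ∈ S, ∀ ζ r, θ (Φ q) (dΦ q (tv q ζ r)) = r + 2 * (q.2 * ζ).im)
  {q₀ : ℂ × ℂ} {U : Set (Fin 4 → ℂ)} {Q : (Fin 4 → ℂ) → ℂ × ℂ} (hQ : LocSec q₀ U Q)

include hQ in
theorem pullQ_apply {F : Type} [NormedAddCommGroup F] [NormedSpace ℝ F]
    (α : ℂ × ℂ → (ℂ × ℂ) →L[ℝ] F) {x : Fin 4 → ℂ} (hx : x ∈ M ∩ U) (ζ : ℂ) (r : ℝ) :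
    pullQ Q α x (dΦ (Q x) (tv (Q x) ζ r)) = α (Q x) (tv (Q x) ζ r) := by
  show α (Q x) (fderiv ℝ Q x (dΦ (Q x) (tv (Q x) ζ r))) = _
  rw [hQ.fderiv_tv hx]

include hQ in
theorem extD_pull_apply {F : Type} [NormedAddCommGroup F] [NormedSpace ℝ F]
    {α : ℂ × ℂ → (ℂ × ℂ) →L[ℝ] F} (hα : ContDiff ℝ ∞ α) {x : Fin 4 → ℂ} (hx : x ∈ M ∩ U)
    (ζ ζ' : ℂ) (r r' : ℝ) :
    extD (pullQ Q α) x (dΦ (Q x) (tv (Q x) ζ r)) (dΦ (Q x) (tv (Q x) ζ' r')) =
      extD α (Q x) (tv (Q x) ζ r) (tv (Q x) ζ' r') := by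
  have h1 : ContDiffAt ℝ ∞ Q x := hQ.smooth.contDiffAt (hQ.isOpen.mem_nhds hx.2)
  rw [extD_pullback (h1.of_le (WithTop.coe_le_coe.2 le_top)) (diffAt hα _), hQ.fderiv_tv hx,
    hQ.fderiv_tv hx]

include hQ in
/-- Tangent vectors in terms of the section. -/
theorem tangent_Q {x : Fin 4 → ℂ} (hx : x ∈ M ∩ U) {v : Fin 4 → ℂ} (hv : IsTangent M x v) :
    ∃ ζ r, v = dΦ (Q x) (tv (Q x) ζ r) := by
  obtain ⟨h1, h2⟩ := hQ.maps x hx
  rw [← h2, isTangent_iff h1] at hv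
  exact hv

include hθv hQ in
theorem theta_eq_pull {x : Fin 4 → ℂ} (hx : x ∈ M ∩ U) {v : Fin 4 → ℂ} (hv : IsTangent M x v) :
    θ x v = pullQ Q thR x v := by
  obtain ⟨h1, h2⟩ := hQ.maps x hx
  obtain ⟨ζ, r, rfl⟩ := tangent_Q hQ hx hv
  rw [pullQ_apply hQ thR hx, thR_tv h1]
  have := hθv (Q x) h1 ζ r
  rwa [h2] at this

theorem extD_thR (q u v : ℂ × ℂ) : ((extD thR q u v : ℝ) : ℂ) = extD thC q u v := by
  have h1 : HasFDerivAt thR (fderiv ℝ thR q) q := (diffAt cd_thR q).hasFDerivAt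
  have h2 : ∀ v : ℂ × ℂ, HasFDerivAt (fun p => ((thR p v : ℝ) : ℂ))
      (Complex.ofRealCLM.comp ((fderiv ℝ thR q).flip v)) q := by
    intro v
    have h3 : HasFDerivAt (fun p => thR p v) ((fderiv ℝ thR q).flip v) q := by
      have := h1.clm_apply (hasFDerivAt_const v q)
      simpa using this
    exact Complex.ofRealCLM.hasFDerivAt.comp q h3
  have h4 : ∀ v : ℂ × ℂ, HasFDerivAt (fun p => thC p v) ((fderiv ℝ thC q).flip v) q := by
    intro v
    have := (diffAt cd_thC q).hasFDerivAt.clm_apply (hasFDerivAt_const v q)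
    simpa using this
  have h5 : ∀ u v : ℂ × ℂ, ((fderiv ℝ thR q u v : ℝ) : ℂ) = fderiv ℝ thC q u v := by
    intro u v
    have h6 : (fun p => ((thR p v : ℝ) : ℂ)) = fun p => thC p v := by
      funext p
      exact thR_apply p v
    have h7 := h2 v
    rw [h6] at h7
    have h8 := congrArg (fun L => L u) (h7.unique (h4 v))
    simpa using h8
  unfold extD
  rw [Complex.ofReal_sub, h5, h5]

include hθ hθv hQ in
/-- The Levi equation on `M`. -/
theorem levi_M {x : Fin 4 → ℂ} (hx : x ∈ M ∩ U) (ζ ζ' : ℂ) (r r' : ℝ) :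
    ((extD θ x (dΦ (Q x) (tv (Q x) ζ r)) (dΦ (Q x) (tv (Q x) ζ' r')) : ℝ) : ℂ) =
      Complex.I * Nf (Q x) *
      (muF (Q x) (tv (Q x) ζ r) * muF' (Q x) (tv (Q x) ζ' r') -
        muF (Q x) (tv (Q x) ζ' r') * muF' (Q x) (tv (Q x) ζ r)) := by
  obtain ⟨h1, h2⟩ := hQ.maps x hx
  have ht : ∀ (ζ : ℂ) (r : ℝ), IsTangent M x (dΦ (Q x) (tv (Q x) ζ r)) := by
    intro ζ r
    have := (isTangent_iff h1 (dΦ (Q x) (tv (Q x) ζ r))).mpr ⟨ζ, r, rfl⟩
    rwa [h2] at this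
  have h3 : extD θ x (dΦ (Q x) (tv (Q x) ζ r)) (dΦ (Q x) (tv (Q x) ζ' r')) =
      extD (pullQ Q thR) x (dΦ (Q x) (tv (Q x) ζ r)) (dΦ (Q x) (tv (Q x) ζ' r')) := by
    refine extD_congr_on_M hx.1 (hθ.differentiable (by simp) x) ?_ ?_ (ht _ _) (ht _ _)
    · exact ((hQ.pull_smooth cd_thR).contDiffAt (hQ.isOpen.mem_nhds hx.2)).differentiableAt
        (by simp)
    · filter_upwards [hQ.isOpen.mem_nhds hx.2] with y hyU hyM v hv
      exact theta_eq_pull hθv hQ ⟨hyM, hyU⟩ hv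
  rw [h3, extD_pull_apply hQ cd_thR hx, extD_thR, levi_S h1]

/-- Holomorphic tangent vectors in terms of the section. -/
theorem holTangent_Q (hQ : LocSec q₀ U Q) {x : Fin 4 → ℂ} (hx : x ∈ M ∩ U) {v : Fin 4 → ℂ}
    (hv : IsHolTangent M x v) : ∃ ζ, v = dΦ (Q x) (tv (Q x) ζ (-2 * ((Q x).2 * ζ).im)) ∧
      Complex.I • v = dΦ (Q x) (tv (Q x) (Complex.I * ζ)
        (-2 * ((Q x).2 * (Complex.I * ζ)).im)) ∧ (v ≠ 0 → ζ ≠ 0) := by
  obtain ⟨h1, h2⟩ := hQ.maps x hx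
  rw [← h2, isHolTangent_iff h1] at hv
  obtain ⟨ζ, rfl⟩ := hv
  refine ⟨ζ, ?_, ?_, ?_⟩
  · rw [dΦ_tv h1]
    simp
  · rw [dΦ_tv h1, smul_smul]
    simp
  · intro h3 h4
    apply h3
    rw [h4, zero_smul]

theorem muF_tv_hol {q : ℂ × ℂ} (hq : q ∈ S) (ζ : ℂ) :
    muF q (tv q ζ (-2 * (q.2 * ζ).im)) = ζ := by
  have h : thC q (tv q ζ (-2 * (q.2 * ζ).im)) = 0 := by
    rw [← thR_apply, thR_tv hq]
    simp
  rw [muF_apply, lamF_tv hq, h]
  simp

include hθ hθv hQ in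
theorem isWebster_M : IsWebster M U θ (pullQ Q muF) (pullQ Q omF) (fun x => NR (Q x))
    (fun x => toA (Q x)) where
  isOpen := hQ.isOpen
  smooth_coframe := hQ.pull_smooth cd_muF
  smooth_connection := hQ.pull_smooth cd_omF
  smooth_levi := cd_NR.comp_contDiffOn hQ.smooth
  smooth_torsion := cd_toA.comp_contDiffOn hQ.smooth
  type := by
    intro x hx v hv
    obtain ⟨h1, h2⟩ := hQ.maps x hx
    obtain ⟨ζ, h3, h4, _⟩ := holTangent_Q hQ hx hv
    rw [h4, h3, pullQ_apply hQ muF hx, pullQ_apply hQ muF hx, muF_tv_hol h1, muF_tv_hol h1]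
  ne_zero := by
    intro x hx v hv hv0
    obtain ⟨h1, h2⟩ := hQ.maps x hx
    obtain ⟨ζ, h3, _, h4⟩ := holTangent_Q hQ hx hv
    rw [h3, pullQ_apply hQ muF hx, muF_tv_hol h1]
    exact h4 hv0
  levi_ne := fun x _ => (NR_pos (Q x)).ne'
  levi := by
    intro x hx v w hv hw
    obtain ⟨h1, h2⟩ := hQ.maps x hx
    obtain ⟨ζ, r, rfl⟩ := tangent_Q hQ hx hv
    obtain ⟨ζ', r', rfl⟩ := tangent_Q hQ hx hw
    rw [levi_M hθ hθv hQ hx]
    simp only [wedge, pullQ_apply hQ muF hx, conj_muF, Nf_eq]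
  torsion := by
    intro x hx v w hv hw
    obtain ⟨h1, h2⟩ := hQ.maps x hx
    have e1 := theta_eq_pull hθv hQ hx hv
    have e2 := theta_eq_pull hθv hQ hx hw
    obtain ⟨ζ, r, rfl⟩ := tangent_Q hQ hx hv
    obtain ⟨ζ', r', rfl⟩ := tangent_Q hQ hx hw
    rw [pullQ_apply hQ thR hx] at e1 e2
    rw [extD_pull_apply hQ cd_muF hx, torsion_S h1]
    simp only [wedge, pullQ_apply hQ muF hx, pullQ_apply hQ omF hx, conj_muF, e1, e2, thR_apply]
  metric := by
    intro x hx v hv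
    obtain ⟨h1, h2⟩ := hQ.maps x hx
    obtain ⟨ζ, r, rfl⟩ := tangent_Q hQ hx hv
    have h3 : ContDiffAt ℝ ∞ Q x := hQ.smooth.contDiffAt (hQ.isOpen.mem_nhds hx.2)
    have h4 : HasFDerivAt (fun x => NR (Q x)) ((fderiv ℝ NR (Q x)).comp (fderiv ℝ Q x)) x :=
      (diffAt cd_NR (Q x)).hasFDerivAt.comp x (h3.differentiableAt (by simp)).hasFDerivAt
    rw [h4.fderiv, ContinuousLinearMap.comp_apply, hQ.fderiv_tv hx, metric_S h1,
      pullQ_apply hQ omF hx]

end Local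

theorem strictlyPseudoconvex_M : StrictlyPseudoconvex M := by
  obtain ⟨θ, hθ, hθv⟩ := exists_theta
  refine ⟨θ, isContactForm_of hθ hθv, ?_⟩
  rintro x hxM v hv hv0
  obtain ⟨q, hq, rfl⟩ := id hxM
  obtain ⟨U, Q, hQ⟩ := exists_locSec hq
  have hx : Φ q ∈ M ∩ U := ⟨hxM, hQ.mem⟩
  obtain ⟨ζ, h3, h4, h5⟩ := holTangent_Q hQ hx hv
  have hζ := h5 hv0
  have h1 := (hQ.maps _ hx).1
  have h6 := levi_M hθ hθv hQ hx ζ (Complex.I * ζ) (-2 * ((Q (Φ q)).2 * ζ).im)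
    (-2 * ((Q (Φ q)).2 * (Complex.I * ζ)).im)
  rw [← h3, ← h4, ← conj_muF, ← conj_muF, muF_tv_hol h1, muF_tv_hol h1, map_mul,
    Complex.conj_I, Nf_eq] at h6
  have h7 : Complex.I * (NR (Q (Φ q)) : ℂ) * (ζ * (-Complex.I * conj ζ) -
      Complex.I * ζ * conj ζ) = ((2 * NR (Q (Φ q)) * Complex.normSq ζ : ℝ) : ℂ) := by
    push_cast
    rw [← Complex.mul_conj]
    linear_combination (-2 * (NR (Q (Φ q)) : ℂ) * (ζ * conj ζ)) * Complex.I_sq
  rw [h7] at h6
  have h8 : extD θ (Φ q) v (Complex.I • v) = 2 * NR (Q (Φ q)) * Complex.normSq ζ :=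
    Complex.ofReal_injective h6
  rw [h8]
  have := NR_pos (Q (Φ q))
  have := Complex.normSq_pos.mpr hζ
  positivity

/-! ### The first Chern class -/

section Chern

variable {E : Type} [NormedAddCommGroup E] [NormedSpace ℂ E]

/-- Real and imaginary part of the exterior derivative. -/
theorem extD_comp {F F' : Type} [NormedAddCommGroup F] [NormedSpace ℝ F] [NormedAddCommGroup F']
    [NormedSpace ℝ F'] (L : F →L[ℝ] F') {α : E → E →L[ℝ] F} {x : E}
    (hα : DifferentiableAt ℝ α x) (u v : E) :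
    extD (fun y => L.comp (α y)) x u v = L (extD α x u v) := by
  have h1 : HasFDerivAt (fun y => L.comp (α y))
      ((ContinuousLinearMap.compL ℝ E F F' L).comp (fderiv ℝ α x)) x :=
    (ContinuousLinearMap.compL ℝ E F F' L).hasFDerivAt.comp x hα.hasFDerivAt
  unfold extD
  rw [h1.fderiv]
  simp

/-- `d (c dg) = 0`. -/
theorem extD_half_fderiv {g : E → ℝ} {x : E} (hg : ContDiffAt ℝ 2 g x) (u v : E) :
    extD (fun y => (1 / 2 : ℝ) • fderiv ℝ g y) x u v = 0 := by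
  have h2 : DifferentiableAt ℝ (fderiv ℝ g) x := by
    apply ContDiffAt.differentiableAt _ one_ne_zero
    exact hg.fderiv_right (m := 1) (by norm_num)
  have hsymm : IsSymmSndFDerivAt ℝ g x := hg.isSymmSndFDerivAt (by simp)
  unfold extD
  rw [fderiv_fun_const_smul h2]
  simp only [smul_apply]
  rw [hsymm u v, sub_self]

end Chern

theorem chernClassZero_M : ChernClassZero M := by
  obtain ⟨θ, hθ, hθv⟩ := exists_theta
  obtain ⟨σ, hσ, hσv⟩ := exists_sigma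
  refine ⟨θ, isContactForm_of hθ hθv, σ, fun x _ => hσ.contDiffAt, ?_⟩
  rintro x ⟨q, hq, rfl⟩
  obtain ⟨U, Q, hQ⟩ := exists_locSec hq
  refine ⟨U, pullQ Q muF, pullQ Q omF, fun x => NR (Q x), fun x => toA (Q x), hQ.mem,
    isWebster_M hθ hθv hQ, ?_⟩
  intro y hy v w hv hw
  have hyn := hQ.isOpen.mem_nhds hy.2
  have hW := isWebster_M hθ hθv hQ
  have hod : ∀ y ∈ U, DifferentiableAt ℝ (pullQ Q omF) y := fun y hy =>
    ((hQ.pull_smooth cd_omF).contDiffAt (hQ.isOpen.mem_nhds hy)).differentiableAt (by simp)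
  -- the imaginary part
  have him : extD σ y v w = -(extD (pullQ Q omF) y v w).im := by
    have h1 : extD (fun z => (-Complex.imCLM).comp (pullQ Q omF z)) y v w =
        (-Complex.imCLM) (extD (pullQ Q omF) y v w) := extD_comp _ (hod y hy.2) v w
    have h2 : extD σ y v w = extD (fun z => (-Complex.imCLM).comp (pullQ Q omF z)) y v w := by
      refine extD_congr_on_M hy.1 (hσ.differentiable (by simp) y) ?_ ?_ hv hw
      · exact (differentiableAt_const _).clm_comp (hod y hy.2)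
      · filter_upwards [hyn] with z hzU hzM u hu
        obtain ⟨h3, h4⟩ := hQ.maps z ⟨hzM, hzU⟩
        obtain ⟨ζ, r, rfl⟩ := tangent_Q hQ ⟨hzM, hzU⟩ hu
        have h5 := hσv (Q z) h3 ζ r
        rw [h4] at h5
        rw [h5]
        show _ = -(pullQ Q omF z (dΦ (Q z) (tv (Q z) ζ r))).im
        rw [pullQ_apply hQ omF ⟨hzM, hzU⟩]
    rw [h2, h1]
    rfl
  -- the real part
  have hre : (extD (pullQ Q omF) y v w).re = 0 := by
    have hNs : ContDiffOn ℝ ∞ (fun x => Real.log (NR (Q x))) U := by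
      have : ContDiffOn ℝ ∞ (fun x => NR (Q x)) U := cd_NR.comp_contDiffOn hQ.smooth
      exact this.log (fun x _ => (NR_pos (Q x)).ne')
    have hg : ∀ z ∈ U, ContDiffAt ℝ ∞ (fun x => Real.log (NR (Q x))) z := fun z hz =>
      hNs.contDiffAt (hQ.isOpen.mem_nhds hz)
    have h1 : extD (fun z => Complex.reCLM.comp (pullQ Q omF z)) y v w =
        Complex.reCLM (extD (pullQ Q omF) y v w) := extD_comp _ (hod y hy.2) v w
    have h2 : extD (fun z => Complex.reCLM.comp (pullQ Q omF z)) y v w =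
        extD (fun z => (1 / 2 : ℝ) • fderiv ℝ (fun x => Real.log (NR (Q x))) z) y v w := by
      refine extD_congr_on_M hy.1 ?_ ?_ ?_ hv hw
      · exact (differentiableAt_const _).clm_comp (hod y hy.2)
      · have h3 : ContDiffAt ℝ 1 (fderiv ℝ (fun x => Real.log (NR (Q x)))) y :=
          (hg y hy.2).fderiv_right (m := 1) (WithTop.coe_le_coe.2 le_top)
        exact (h3.differentiableAt one_ne_zero).const_smul (1 / 2 : ℝ)
      · filter_upwards [hyn] with z hzU hzM u hu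
        have h4 := hW.metric z ⟨hzM, hzU⟩ u hu
        have h5 : HasFDerivAt (fun x => NR (Q x)) (fderiv ℝ (fun x => NR (Q x)) z) z :=
          (((cd_NR.comp_contDiffOn hQ.smooth).contDiffAt
            (hQ.isOpen.mem_nhds hzU)).differentiableAt (by simp)).hasFDerivAt
        have h6 := h5.log (NR_pos (Q z)).ne'
        rw [h6.fderiv]
        simp only [smul_apply, smul_eq_mul]
        show (pullQ Q omF z u).re = _
        rw [Complex.add_conj] at h4
        have h7 : fderiv ℝ (fun x => NR (Q x)) z u = NR (Q z) * (2 * (pullQ Q omF z u).re) := by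
          exact_mod_cast h4
        rw [h7]
        have := (NR_pos (Q z)).ne'
        field_simp
    have h3 : extD (fun z => (1 / 2 : ℝ) • fderiv ℝ (fun x => Real.log (NR (Q x))) z) y v w = 0 :=
      extD_half_fderiv ((hg y hy.2).of_le (WithTop.coe_le_coe.2 le_top)) v w
    rw [h2, h3] at h1
    exact h1.symm
  rw [him]
  apply Complex.ext
  · simp
  · simp [hre]

end Pool.Agent.helper65.CR
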