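import Pool.Agent.helper45.CR.TangentSpace

/-!
# `M` is a closed three-dimensional CR submanifold of `ℂ⁴`
-/

open Filter Topology Set Metric
open scoped ContDiff ComplexConjugate

namespace Pool.Agent.helper65.CR

theorem normSq_add_of_mem_S {q : ℂ × ℂ} (hq : q ∈ S) :
    Complex.normSq q.1 + Complex.normSq q.2 = 1 := by
  have h : q.1 * conj q.1 + q.2 * conj q.2 = 1 := hq
  rw [Complex.mul_conj, Complex.mul_conj, ← Complex.ofReal_add] at h
  exact_mod_cast h

theorem isCompact_sphereS : IsCompact S := by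
  apply Metric.isCompact_of_isClosed_isBounded
  · have h1 : Continuous fun q : ℂ × ℂ => q.1 * conj q.1 + q.2 * conj q.2 :=
      (continuous_fst.mul (Complex.continuous_conj.comp continuous_fst)).add
        (continuous_snd.mul (Complex.continuous_conj.comp continuous_snd))
    exact isClosed_eq h1 continuous_const
  · refine (Metric.isBounded_closedBall (x := (0 : ℂ × ℂ)) (r := 1)).subset ?_
    intro q hq
    have h := normSq_add_of_mem_S hq
    rw [Complex.normSq_eq_norm_sq, Complex.normSq_eq_norm_sq] at h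
    rw [mem_closedBall_zero_iff, Prod.norm_def, max_le_iff]
    constructor
    · nlinarith [norm_nonneg q.1, norm_nonneg q.2, sq_nonneg ‖q.2‖]
    · nlinarith [norm_nonneg q.1, norm_nonneg q.2, sq_nonneg ‖q.1‖]

theorem isConnected_S : IsConnected S := by
  have h : S = range (fun t : ℝ × ℝ × ℝ => ((((Real.cos t.1 : ℝ) : ℂ) *
      Complex.exp (t.2.1 * Complex.I), ((Real.sin t.1 : ℝ) : ℂ) *
      Complex.exp (t.2.2 * Complex.I)) : ℂ × ℂ)) := by
    ext q
    constructor
    · intro hq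
      have h1 := normSq_add_of_mem_S hq
      rw [Complex.normSq_eq_norm_sq, Complex.normSq_eq_norm_sq] at h1
      refine ⟨(Real.arccos ‖q.1‖, Complex.arg q.1, Complex.arg q.2), ?_⟩
      have h2 : ‖q.1‖ ≤ 1 := by
        nlinarith [norm_nonneg q.1, norm_nonneg q.2, sq_nonneg ‖q.2‖]
      have h3 : Real.cos (Real.arccos ‖q.1‖) = ‖q.1‖ :=
        Real.cos_arccos (by linarith [norm_nonneg q.1]) h2
      have h4 : Real.sin (Real.arccos ‖q.1‖) = ‖q.2‖ := by
        rw [Real.sin_arccos]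
        have : 1 - ‖q.1‖ ^ 2 = ‖q.2‖ ^ 2 := by linarith
        rw [this, Real.sqrt_sq (norm_nonneg _)]
      ext
      · show ((Real.cos (Real.arccos ‖q.1‖) : ℝ) : ℂ) * Complex.exp (Complex.arg q.1 * Complex.I) =
          q.1
        rw [h3]
        exact Complex.norm_mul_exp_arg_mul_I q.1
      · show ((Real.sin (Real.arccos ‖q.1‖) : ℝ) : ℂ) * Complex.exp (Complex.arg q.2 * Complex.I) =
          q.2
        rw [h4]
        exact Complex.norm_mul_exp_arg_mul_I q.2
    · rintro ⟨t, rfl⟩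
      have he : ∀ s : ℝ, Complex.exp (s * Complex.I) * conj (Complex.exp (s * Complex.I)) = 1 := by
        intro s
        rw [Complex.mul_conj, Complex.normSq_eq_norm_sq, Complex.norm_exp_ofReal_mul_I]
        simp
      have h5 : ((Real.cos t.1 : ℝ) : ℂ) ^ 2 + ((Real.sin t.1 : ℝ) : ℂ) ^ 2 = 1 := by
        rw [← Complex.ofReal_pow, ← Complex.ofReal_pow, ← Complex.ofReal_add,
          Real.cos_sq_add_sin_sq]
        simp
      show ((Real.cos t.1 : ℝ) : ℂ) * Complex.exp (t.2.1 * Complex.I) *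
        conj (((Real.cos t.1 : ℝ) : ℂ) * Complex.exp (t.2.1 * Complex.I)) +
        ((Real.sin t.1 : ℝ) : ℂ) * Complex.exp (t.2.2 * Complex.I) *
        conj (((Real.sin t.1 : ℝ) : ℂ) * Complex.exp (t.2.2 * Complex.I)) = 1
      rw [map_mul, map_mul, Complex.conj_ofReal, Complex.conj_ofReal]
      linear_combination h5 + ((Real.cos t.1 : ℝ) : ℂ) ^ 2 * he t.2.1 +
        ((Real.sin t.1 : ℝ) : ℂ) ^ 2 * he t.2.2
  rw [h]
  apply isConnected_range
  refine Continuous.prodMk ?_ ?_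
  · exact (Complex.continuous_ofReal.comp (Real.continuous_cos.comp continuous_fst)).mul
      (Complex.continuous_exp.comp
        ((Complex.continuous_ofReal.comp (continuous_fst.comp continuous_snd)).mul
          continuous_const))
  · exact (Complex.continuous_ofReal.comp (Real.continuous_sin.comp continuous_fst)).mul
      (Complex.continuous_exp.comp
        ((Complex.continuous_ofReal.comp (continuous_snd.comp continuous_snd)).mul
          continuous_const))

/-- The hermitian product. -/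
noncomputable def herm (q p : ℂ × ℂ) : ℂ := conj q.1 * p.1 + conj q.2 * p.2

/-- The determinant. -/
def lam (q p : ℂ × ℂ) : ℂ := q.1 * p.2 - q.2 * p.1

/-- The norming factor of the gnomonic chart. -/
noncomputable def fac (s : Fin 3 → ℝ) : ℝ := (Real.sqrt (1 + (s 0 ^ 2 + s 1 ^ 2 + s 2 ^ 2)))⁻¹

/-- The gnomonic chart. -/
noncomputable def gn (q : ℂ × ℂ) (s : Fin 3 → ℝ) : ℂ × ℂ :=
  fac s • (q + tv q (s 0 + s 1 * Complex.I) (s 2))

theorem fac_pos (s : Fin 3 → ℝ) : 0 < fac s := by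
  unfold fac
  positivity

theorem fac_sq (s : Fin 3 → ℝ) : fac s ^ 2 * (1 + (s 0 ^ 2 + s 1 ^ 2 + s 2 ^ 2)) = 1 := by
  unfold fac
  rw [inv_pow, Real.sq_sqrt (by positivity)]
  exact inv_mul_cancel₀ (by positivity)

theorem contDiff_fac : ContDiff ℝ ∞ fac := by
  have h : ∀ i, ContDiff ℝ ∞ (fun s : Fin 3 → ℝ => s i) := fun i => contDiff_apply ℝ ℝ i
  have h1 : ContDiff ℝ ∞ (fun s : Fin 3 → ℝ => 1 + (s 0 ^ 2 + s 1 ^ 2 + s 2 ^ 2)) :=
    contDiff_const.add ((((h 0).pow 2).add ((h 1).pow 2)).add ((h 2).pow 2))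
  have h2 : ContDiff ℝ ∞ (fun s : Fin 3 → ℝ => Real.sqrt (1 + (s 0 ^ 2 + s 1 ^ 2 + s 2 ^ 2))) :=
    h1.sqrt (fun s => by positivity)
  exact h2.inv (fun s => by positivity)

theorem contDiff_gn (q : ℂ × ℂ) : ContDiff ℝ ∞ (gn q) := by
  have h : ∀ i, ContDiff ℝ ∞ (fun s : Fin 3 → ℝ => ((s i : ℝ) : ℂ)) := fun i =>
    Complex.ofRealCLM.contDiff.comp (contDiff_apply ℝ ℝ i)
  have hc : ∀ c : ℂ, ContDiff ℝ ∞ (fun _ : Fin 3 → ℝ => c) := fun c => contDiff_const
  have h1 : ContDiff ℝ ∞ (fun s : Fin 3 → ℝ => tv q (s 0 + s 1 * Complex.I) (s 2)) := by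
    refine ContDiff.prodMk ?_ ?_
    · exact ((((h 0).add ((h 1).mul (hc _))).neg).mul (hc _)).add (((hc _).mul (h 2)).mul (hc _))
    · exact (((h 0).add ((h 1).mul (hc _))).mul (hc _)).add (((hc _).mul (h 2)).mul (hc _))
  exact contDiff_fac.smul (contDiff_const.add h1)

theorem herm_gn {q : ℂ × ℂ} (hq : q ∈ S) (s : Fin 3 → ℝ) :
    herm q (gn q s) = fac s * (1 + Complex.I * s 2) := by
  have h1 := tv_re hq (s 0 + s 1 * Complex.I) (s 2)
  have h2 : q.1 * conj q.1 + q.2 * conj q.2 = 1 := hq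
  unfold herm gn
  simp only [Prod.smul_fst, Prod.smul_snd, Prod.fst_add, Prod.snd_add, Complex.real_smul]
  linear_combination (fac s : ℂ) * h1 + (fac s : ℂ) * h2

theorem lam_gn {q : ℂ × ℂ} (hq : q ∈ S) (s : Fin 3 → ℝ) :
    lam q (gn q s) = fac s * (s 0 + s 1 * Complex.I) := by
  have h1 := tv_lam hq (s 0 + s 1 * Complex.I) (s 2)
  unfold lam gn
  simp only [Prod.smul_fst, Prod.smul_snd, Prod.fst_add, Prod.snd_add, Complex.real_smul]
  linear_combination (fac s : ℂ) * h1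

/-- Decomposition of the square norm. -/
theorem norm_decomp {q : ℂ × ℂ} (hq : q ∈ S) (p : ℂ × ℂ) :
    p.1 * conj p.1 + p.2 * conj p.2 =
      herm q p * conj (herm q p) + lam q p * conj (lam q p) := by
  have h2 : q.1 * conj q.1 + q.2 * conj q.2 = 1 := hq
  simp only [herm, lam, map_add, map_sub, map_mul, Complex.conj_conj]
  linear_combination -(p.1 * conj p.1 + p.2 * conj p.2) * h2

theorem norm_decomp' {q : ℂ × ℂ} (hq : q ∈ S) (p : ℂ × ℂ) :
    p.1 * conj p.1 + p.2 * conj p.2 =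
      (((herm q p).re ^ 2 + ((lam q p).re ^ 2 + (lam q p).im ^ 2 + (herm q p).im ^ 2) : ℝ) : ℂ) := by
  rw [norm_decomp hq, Complex.mul_conj, Complex.mul_conj, Complex.normSq_apply,
    Complex.normSq_apply]
  push_cast
  ring

theorem vec_decomp {q : ℂ × ℂ} (hq : q ∈ S) (p : ℂ × ℂ) :
    p = (herm q p * q.1 - lam q p * conj q.2, herm q p * q.2 + lam q p * conj q.1) := by
  have h2 : q.1 * conj q.1 + q.2 * conj q.2 = 1 := hq
  ext
  · simp only [herm, lam]
    linear_combination -p.1 * h2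
  · simp only [herm, lam]
    linear_combination -p.2 * h2

theorem gn_mem_S {q : ℂ × ℂ} (hq : q ∈ S) (s : Fin 3 → ℝ) : gn q s ∈ S := by
  show (gn q s).1 * conj (gn q s).1 + (gn q s).2 * conj (gn q s).2 = 1
  rw [norm_decomp hq, herm_gn hq, lam_gn hq]
  have h := fac_sq s
  have h' : (fac s : ℂ) ^ 2 * (1 + ((s 0 : ℂ) ^ 2 + (s 1 : ℂ) ^ 2 + (s 2 : ℂ) ^ 2)) = 1 := by
    exact_mod_cast h
  simp only [map_mul, map_add, map_one, Complex.conj_ofReal, Complex.conj_I]
  linear_combination h' - ((fac s : ℂ) ^ 2 * ((s 1 : ℂ) ^ 2 + (s 2 : ℂ) ^ 2)) * Complex.I_sq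

/-- The inverse of the gnomonic chart. -/
noncomputable def gnInv (q p : ℂ × ℂ) : Fin 3 → ℝ :=
  ![(lam q p).re / (herm q p).re, (lam q p).im / (herm q p).re, (herm q p).im / (herm q p).re]

theorem gnInv_gn {q : ℂ × ℂ} (hq : q ∈ S) (s : Fin 3 → ℝ) : gnInv q (gn q s) = s := by
  have h0 := (fac_pos s).ne'
  unfold gnInv
  rw [herm_gn hq, lam_gn hq]
  funext i
  fin_cases i
  · simp [h0]
  · simp [h0]
  · simp [h0]

theorem gn_gnInv {q p : ℂ × ℂ} (hq : q ∈ S) (hp : p ∈ S) (h : 0 < (herm q p).re) :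
    gn q (gnInv q p) = p := by
  have h1 : p.1 * conj p.1 + p.2 * conj p.2 = 1 := hp
  rw [norm_decomp' hq] at h1
  have h2 : (herm q p).re ^ 2 + ((lam q p).re ^ 2 + (lam q p).im ^ 2 + (herm q p).im ^ 2) = 1 := by
    exact_mod_cast h1
  have h3 : fac (gnInv q p) = (herm q p).re := by
    unfold fac gnInv
    simp only [Matrix.cons_val_zero, Matrix.cons_val_one, Matrix.cons_val]
    rw [inv_eq_iff_eq_inv]
    have h4 : 1 + (((lam q p).re / (herm q p).re) ^ 2 + ((lam q p).im / (herm q p).re) ^ 2 +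
        ((herm q p).im / (herm q p).re) ^ 2) = ((herm q p).re⁻¹) ^ 2 := by
      field_simp
      linarith
    rw [h4, Real.sqrt_sq (inv_nonneg.mpr h.le)]
  unfold gn
  rw [h3]
  conv_rhs => rw [vec_decomp hq p]
  have e1 : ((herm q p).re : ℂ) * (((lam q p).re / (herm q p).re : ℝ) +
      ((lam q p).im / (herm q p).re : ℝ) * Complex.I) = lam q p := by
    have hne : ((herm q p).re : ℂ) ≠ 0 := by exact_mod_cast h.ne'
    push_cast
    field_simp
    exact Complex.re_add_im _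
  have e2 : ((herm q p).re : ℂ) * (1 + Complex.I * ((herm q p).im / (herm q p).re : ℝ)) =
      herm q p := by
    have hne : ((herm q p).re : ℂ) ≠ 0 := by exact_mod_cast h.ne'
    push_cast
    field_simp
    rw [mul_comm Complex.I]
    exact Complex.re_add_im _
  ext
  · simp only [gnInv, tv, Prod.smul_fst, Prod.fst_add, Complex.real_smul, Matrix.cons_val_zero,
      Matrix.cons_val_one, Matrix.cons_val]
    linear_combination q.1 * e2 - conj q.2 * e1
  · simp only [gnInv, tv, Prod.smul_snd, Prod.snd_add, Complex.real_smul, Matrix.cons_val_zero,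
      Matrix.cons_val_one, Matrix.cons_val]
    linear_combination q.2 * e2 + conj q.1 * e1

theorem exists_chart {q : ℂ × ℂ} (hq : q ∈ S) :
    ∃ (U : Set (Fin 4 → ℂ)) (V : Set (Fin 3 → ℝ)) (φ : (Fin 3 → ℝ) → (Fin 4 → ℂ))
      (ψ : (Fin 4 → ℂ) → Fin 3 → ℝ),
    IsOpen U ∧ Φ q ∈ U ∧ IsOpen V ∧ ContDiffOn ℝ ∞ φ V ∧ ContDiffOn ℝ ∞ ψ U ∧
    φ '' V = M ∩ U ∧ ∀ y ∈ V, ψ (φ y) = y := by
  obtain ⟨U₀, Q, hQ⟩ := exists_locSec hq
  have hφ : ContDiff ℝ ∞ (fun s => Φ (gn q s)) := contDiff_Φ.comp (contDiff_gn q)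
  have hherm : ∀ p : ℂ × ℂ, ContDiff ℝ ∞ (fun r => herm p r) := fun p =>
    (contDiff_const.mul contDiff_fst).add (contDiff_const.mul contDiff_snd)
  have hlam : ContDiff ℝ ∞ (fun r => lam q r) :=
    (contDiff_const.mul contDiff_snd).sub (contDiff_const.mul contDiff_fst)
  have hQ1 : ContDiffOn ℝ ∞ (fun x => (herm q (Q x)).re) U₀ :=
    Complex.reCLM.contDiff.comp_contDiffOn ((hherm q).comp_contDiffOn hQ.smooth)
  have hQ2 : ContDiffOn ℝ ∞ (fun x => (herm q (Q x)).im) U₀ :=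
    Complex.imCLM.contDiff.comp_contDiffOn ((hherm q).comp_contDiffOn hQ.smooth)
  have hQ3 : ContDiffOn ℝ ∞ (fun x => (lam q (Q x)).re) U₀ :=
    Complex.reCLM.contDiff.comp_contDiffOn (hlam.comp_contDiffOn hQ.smooth)
  have hQ4 : ContDiffOn ℝ ∞ (fun x => (lam q (Q x)).im) U₀ :=
    Complex.imCLM.contDiff.comp_contDiffOn (hlam.comp_contDiffOn hQ.smooth)
  set U : Set (Fin 4 → ℂ) := U₀ ∩ (fun x => (herm q (Q x)).re) ⁻¹' Ioi 0 with hU
  have hUo : IsOpen U := hQ1.continuousOn.isOpen_inter_preimage hQ.isOpen isOpen_Ioi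
  set V₀ : Set (Fin 3 → ℝ) := (fun s => Φ (gn q s)) ⁻¹' U₀ with hV₀
  have hV₀o : IsOpen V₀ := hQ.isOpen.preimage hφ.continuous
  have hcont : ContinuousOn (fun s => ((Q (Φ (gn q s))).1 * conj (gn q s).1 +
      (Q (Φ (gn q s))).2 * conj (gn q s).2).re) V₀ := by
    have h1 : ContinuousOn (fun s => Q (Φ (gn q s))) V₀ :=
      hQ.smooth.continuousOn.comp hφ.continuous.continuousOn (fun s hs => hs)
    have h2 : Continuous (fun s => conj (gn q s).1) :=
      Complex.continuous_conj.comp (continuous_fst.comp (contDiff_gn q).continuous)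
    have h3 : Continuous (fun s => conj (gn q s).2) :=
      Complex.continuous_conj.comp (continuous_snd.comp (contDiff_gn q).continuous)
    exact Complex.continuous_re.comp_continuousOn
      (((continuous_fst.comp_continuousOn h1).mul h2.continuousOn).add
        ((continuous_snd.comp_continuousOn h1).mul h3.continuousOn))
  set V : Set (Fin 3 → ℝ) := V₀ ∩ (fun s => ((Q (Φ (gn q s))).1 * conj (gn q s).1 +
      (Q (Φ (gn q s))).2 * conj (gn q s).2).re) ⁻¹' Ioi 0 with hV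
  have hVo : IsOpen V := hcont.isOpen_inter_preimage hV₀o isOpen_Ioi
  have hphase : ∀ s ∈ V, Q (Φ (gn q s)) = gn q s := fun s hs =>
    hQ.phase (gn_mem_S hq s) hs.1 hs.2
  refine ⟨U, V, fun s => Φ (gn q s), fun x => gnInv q (Q x), hUo, ⟨hQ.mem, ?_⟩, hVo,
    hφ.contDiffOn, ?_, ?_, ?_⟩
  · show 0 < (herm q (Q (Φ q))).re
    rw [hQ.base]
    have h2 : q.1 * conj q.1 + q.2 * conj q.2 = 1 := hq
    have : herm q q = 1 := by
      unfold herm
      linear_combination h2
    rw [this]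
    norm_num
  · have hne : ∀ x ∈ U, (herm q (Q x)).re ≠ 0 := fun x hx =>
      ne_of_gt (show 0 < (herm q (Q x)).re from hx.2)
    rw [contDiffOn_pi]
    intro i
    fin_cases i
    · exact (hQ3.mono inter_subset_left).div (hQ1.mono inter_subset_left) hne
    · exact (hQ4.mono inter_subset_left).div (hQ1.mono inter_subset_left) hne
    · exact (hQ2.mono inter_subset_left).div (hQ1.mono inter_subset_left) hne
  · ext x
    constructor
    · rintro ⟨s, hs, rfl⟩
      refine ⟨⟨gn q s, gn_mem_S hq s, rfl⟩, hs.1, ?_⟩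
      show 0 < (herm q (Q (Φ (gn q s)))).re
      rw [hphase s hs, herm_gn hq]
      simp [fac_pos s]
    · rintro ⟨hxM, hxU₀, hx⟩
      obtain ⟨hpS, hpΦ⟩ := hQ.maps x ⟨hxM, hxU₀⟩
      have hg : gn q (gnInv q (Q x)) = Q x := gn_gnInv hq hpS hx
      refine ⟨gnInv q (Q x), ⟨?_, ?_⟩, ?_⟩
      · show Φ (gn q (gnInv q (Q x))) ∈ U₀
        rw [hg, hpΦ]
        exact hxU₀
      · show 0 < ((Q (Φ (gn q (gnInv q (Q x))))).1 * conj (gn q (gnInv q (Q x))).1 +
          (Q (Φ (gn q (gnInv q (Q x))))).2 * conj (gn q (gnInv q (Q x))).2).re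
        rw [hg, hpΦ]
        have : (Q x).1 * conj (Q x).1 + (Q x).2 * conj (Q x).2 = 1 := hpS
        rw [this]
        norm_num
      · show Φ (gn q (gnInv q (Q x))) = x
        rw [hg, hpΦ]
  · intro y hy
    show gnInv q (Q (Φ (gn q y))) = y
    rw [hphase y hy]
    exact gnInv_gn hq y

theorem isClosedCR3_M : IsClosedCR3 M where
  compact := isCompact_sphereS.image contDiff_Φ.continuous
  connected := isConnected_S.image _ contDiff_Φ.continuous.continuousOn
  chart := by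
    rintro x ⟨q, hq, rfl⟩
    exact exists_chart hq
  cr := by
    rintro x ⟨q, hq, rfl⟩
    exact ⟨P q, P_ne_zero hq, fun w => isHolTangent_iff hq w⟩

end Pool.Agent.helper65.CR
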