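import Pool.Agent.helper45.CR.Tangent

/-!
# Pullback of one-forms, forms which agree on `M`, extension of invariant forms
-/

open Filter Topology Set Metric
open scoped ContDiff ComplexConjugate Manifold

namespace Pool.Agent.helper65.CR

section Pullback

variable {E₁ E₂ F : Type} [NormedAddCommGroup E₁] [NormedSpace ℂ E₁] [NormedAddCommGroup E₂]
  [NormedSpace ℂ E₂] [NormedAddCommGroup F] [NormedSpace ℝ F]

/-- The pullback of a one-form. -/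
noncomputable def pullQ (G : E₁ → E₂) (α : E₂ → E₂ →L[ℝ] F) (y : E₁) : E₁ →L[ℝ] F :=
  (α (G y)).comp (fderiv ℝ G y)

/-- Naturality of the exterior derivative. -/
theorem extD_pullback {G : E₁ → E₂} {α : E₂ → E₂ →L[ℝ] F} {x : E₁} (hG : ContDiffAt ℝ 2 G x)
    (hα : DifferentiableAt ℝ α (G x)) (u v : E₁) :
    extD (pullQ G α) x u v = extD α (G x) (fderiv ℝ G x u) (fderiv ℝ G x v) := by
  have hGd : HasFDerivAt G (fderiv ℝ G x) x := (hG.differentiableAt (by norm_num)).hasFDerivAt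
  have h1 : HasFDerivAt (fun y => α (G y)) ((fderiv ℝ α (G x)).comp (fderiv ℝ G x)) x :=
    hα.hasFDerivAt.comp x hGd
  have h2 : DifferentiableAt ℝ (fderiv ℝ G) x := by
    apply ContDiffAt.differentiableAt _ one_ne_zero
    exact hG.fderiv_right (m := 1) (by norm_num)
  have h3 := h1.clm_comp h2.hasFDerivAt
  have h4 : fderiv ℝ (pullQ G α) x = _ := h3.fderiv
  have hsymm : IsSymmSndFDerivAt ℝ G x := hG.isSymmSndFDerivAt (by simp)
  unfold extD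
  rw [h4]
  simp only [add_apply, ContinuousLinearMap.comp_apply,
    ContinuousLinearMap.compL_apply, ContinuousLinearMap.flip_apply]
  rw [hsymm u v]
  abel

theorem extD_congr_of_eventuallyEq {α β : E₁ → E₁ →L[ℝ] F} {x : E₁} (h : α =ᶠ[𝓝 x] β) (u v : E₁) :
    extD α x u v = extD β x u v := by
  unfold extD
  rw [h.fderiv_eq]

theorem extD_zero' (x u v : E₁) : extD (fun _ => (0 : E₁ →L[ℝ] F)) x u v = 0 := by
  simp [extD]

theorem extD_sub' {α β : E₁ → E₁ →L[ℝ] F} {x : E₁} (hα : DifferentiableAt ℝ α x)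
    (hβ : DifferentiableAt ℝ β x) (u v : E₁) :
    extD (fun y => α y - β y) x u v = extD α x u v - extD β x u v := by
  unfold extD
  rw [fderiv_fun_sub hα hβ]
  simp only [sub_apply]
  abel

end Pullback

/-! ### The radial projection onto the sphere -/

/-- The radial projection. -/
noncomputable def nrm (p : ℂ × ℂ) : ℂ × ℂ :=
  (Real.sqrt (Complex.normSq p.1 + Complex.normSq p.2))⁻¹ • p

theorem contDiff_normSq : ContDiff ℝ ∞ Complex.normSq := by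
  have : (Complex.normSq : ℂ → ℝ) = fun z => z.re * z.re + z.im * z.im := by
    funext z
    exact Complex.normSq_apply z
  rw [this]
  exact (Complex.reCLM.contDiff.mul Complex.reCLM.contDiff).add
    (Complex.imCLM.contDiff.mul Complex.imCLM.contDiff)

theorem contDiffAt_nrm {q : ℂ × ℂ} (hq : q ∈ S) : ContDiffAt ℝ ∞ nrm q := by
  have h1 : ContDiffAt ℝ ∞ (fun p : ℂ × ℂ => Complex.normSq p.1 + Complex.normSq p.2) q :=
    ((contDiff_normSq.comp contDiff_fst).add (contDiff_normSq.comp contDiff_snd)).contDiffAt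
  have h2 : Complex.normSq q.1 + Complex.normSq q.2 = 1 := normSq_add_of_mem_S hq
  have h3 : ContDiffAt ℝ ∞ (fun p : ℂ × ℂ =>
      Real.sqrt (Complex.normSq p.1 + Complex.normSq p.2)) q := h1.sqrt (by rw [h2]; norm_num)
  exact (h3.inv (by rw [h2]; simp)).smul contDiffAt_id

theorem nrm_of_mem {q : ℂ × ℂ} (hq : q ∈ S) : nrm q = q := by
  unfold nrm
  rw [normSq_add_of_mem_S hq]
  simp

theorem nrm_mem {p : ℂ × ℂ} (hp : Complex.normSq p.1 + Complex.normSq p.2 ≠ 0) : nrm p ∈ S := by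
  have h0 : 0 ≤ Complex.normSq p.1 + Complex.normSq p.2 :=
    add_nonneg (Complex.normSq_nonneg _) (Complex.normSq_nonneg _)
  set k := Complex.normSq p.1 + Complex.normSq p.2 with hk
  show (nrm p).1 * conj (nrm p).1 + (nrm p).2 * conj (nrm p).2 = 1
  rw [Complex.mul_conj, Complex.mul_conj, ← Complex.ofReal_add]
  have h1 : Complex.normSq (nrm p).1 + Complex.normSq (nrm p).2 = 1 := by
    unfold nrm
    rw [← hk]
    simp only [Prod.smul_fst, Prod.smul_snd, Complex.real_smul, Complex.normSq_mul,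
      Complex.normSq_ofReal]
    rw [← mul_add, ← hk, ← mul_inv, Real.mul_self_sqrt h0]
    exact inv_mul_cancel₀ hp
  rw [h1]
  simp

theorem eventually_nrm_mem {q : ℂ × ℂ} (hq : q ∈ S) : ∀ᶠ p in 𝓝 q, nrm p ∈ S := by
  have h1 : Continuous (fun p : ℂ × ℂ => Complex.normSq p.1 + Complex.normSq p.2) :=
    ((contDiff_normSq.comp contDiff_fst).add (contDiff_normSq.comp contDiff_snd)).continuous
  have h2 : Complex.normSq q.1 + Complex.normSq q.2 ≠ 0 := by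
    rw [normSq_add_of_mem_S hq]
    exact one_ne_zero
  filter_upwards [h1.continuousAt.eventually_ne h2] with p hp
  exact nrm_mem hp

theorem fderiv_nrm_tv {q : ℂ × ℂ} (hq : q ∈ S) (ζ : ℂ) (r : ℝ) :
    fderiv ℝ nrm q (tv q ζ r) = tv q ζ r := by
  obtain ⟨γ, hγ0, hγd, hγS⟩ := exists_curve hq ζ r
  have h1 : HasFDerivAt nrm (fderiv ℝ nrm q) (γ 0) := by
    rw [hγ0]
    exact ((contDiffAt_nrm hq).differentiableAt (by simp)).hasFDerivAt
  have h2 : HasDerivAt (nrm ∘ γ) (fderiv ℝ nrm q (tv q ζ r)) 0 := h1.comp_hasDerivAt (0 : ℝ) hγd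
  have h3 : nrm ∘ γ = γ := by
    funext s
    exact nrm_of_mem (hγS s)
  rw [h3] at h2
  exact h2.unique hγd

/-- The projection followed by `Φ`. -/
noncomputable def Φn (p : ℂ × ℂ) : Fin 4 → ℂ := Φ (nrm p)

theorem contDiffAt_Φn {q : ℂ × ℂ} (hq : q ∈ S) : ContDiffAt ℝ ∞ Φn q :=
  contDiff_Φ.contDiffAt.comp q (contDiffAt_nrm hq)

theorem Φn_of_mem {q : ℂ × ℂ} (hq : q ∈ S) : Φn q = Φ q := by
  unfold Φn
  rw [nrm_of_mem hq]

theorem fderiv_Φn_tv {q : ℂ × ℂ} (hq : q ∈ S) (ζ : ℂ) (r : ℝ) :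
    fderiv ℝ Φn q (tv q ζ r) = dΦ q (tv q ζ r) := by
  have h1 : HasFDerivAt nrm (fderiv ℝ nrm q) q :=
    ((contDiffAt_nrm hq).differentiableAt (by simp)).hasFDerivAt
  have h2 : HasFDerivAt Φ (fderiv ℝ Φ (nrm q)) (nrm q) :=
    (contDiff_Φ.differentiable (by simp) _).hasFDerivAt
  have h3 : HasFDerivAt Φn ((fderiv ℝ Φ (nrm q)).comp (fderiv ℝ nrm q)) q := h2.comp q h1
  rw [h3.fderiv, ContinuousLinearMap.comp_apply, fderiv_nrm_tv hq, nrm_of_mem hq, fderiv_Φ_apply]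

/-- Derivatives of `Φn` are tangent to `M`. -/
theorem isTangent_fderiv_Φn {q : ℂ × ℂ} (hq : q ∈ S) :
    ∀ᶠ p in 𝓝 q, Φn p ∈ M ∧ ∀ u, IsTangent M (Φn p) (fderiv ℝ Φn p u) := by
  have h1 : ∀ᶠ p in 𝓝 q, ContDiffAt ℝ 1 Φn p :=
    ((contDiffAt_Φn hq).of_le (by simp)).eventually (by simp)
  have h2 : ∀ᶠ p in 𝓝 q, ∀ᶠ p' in 𝓝 p, nrm p' ∈ S :=
    eventually_eventually_nhds.mpr (eventually_nrm_mem hq)
  filter_upwards [h1, h2, eventually_nrm_mem hq] with p hp1 hp2 hp3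
  refine ⟨⟨nrm p, hp3, rfl⟩, fun u => ?_⟩
  refine ⟨fun t => Φn (p + t • u), by simp, ?_, ?_⟩
  · have h3 : HasDerivAt (fun t : ℝ => p + t • u) u 0 := by
      have := ((hasDerivAt_id (0 : ℝ)).smul_const u).const_add p
      simpa using this
    have h4 : HasFDerivAt Φn (fderiv ℝ Φn p) (p + (0 : ℝ) • u) := by
      have := (hp1.differentiableAt one_ne_zero).hasFDerivAt
      simpa using this
    exact HasFDerivAt.comp_hasDerivAt (l := Φn) (f := fun t : ℝ => p + t • u) (0 : ℝ) h4 h3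
  · have h5 : Tendsto (fun t : ℝ => p + t • u) (𝓝 0) (𝓝 p) := by
      have : Continuous fun t : ℝ => p + t • u := by fun_prop
      have h := this.tendsto 0
      simpa using h
    filter_upwards [h5.eventually hp2] with t ht
    exact ⟨nrm (p + t • u), ht, rfl⟩

/-- A form which vanishes on the tangent spaces of `M` has vanishing exterior derivative there. -/
theorem extD_eq_zero_on_M {F : Type} [NormedAddCommGroup F] [NormedSpace ℝ F]
    {γ : (Fin 4 → ℂ) → (Fin 4 → ℂ) →L[ℝ] F} {x : Fin 4 → ℂ} (hx : x ∈ M)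
    (hd : DifferentiableAt ℝ γ x)
    (hz : ∀ᶠ y in 𝓝 x, y ∈ M → ∀ v, IsTangent M y v → γ y v = 0) {u v : Fin 4 → ℂ}
    (hu : IsTangent M x u) (hv : IsTangent M x v) : extD γ x u v = 0 := by
  obtain ⟨q, hq, rfl⟩ := hx
  obtain ⟨ζ, r, rfl⟩ := (isTangent_iff hq u).mp hu
  obtain ⟨ζ', r', rfl⟩ := (isTangent_iff hq v).mp hv
  have h1 : pullQ Φn γ =ᶠ[𝓝 q] fun _ => 0 := by
    have hc : Tendsto Φn (𝓝 q) (𝓝 (Φ q)) := by
      have := (contDiffAt_Φn hq).continuousAt.tendsto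
      rwa [Φn_of_mem hq] at this
    filter_upwards [hc.eventually hz, isTangent_fderiv_Φn hq] with p hp1 hp2
    exact ContinuousLinearMap.ext fun w => hp1 hp2.1 _ (hp2.2 w)
  have h2 : extD (pullQ Φn γ) q (tv q ζ r) (tv q ζ' r') = 0 := by
    rw [extD_congr_of_eventuallyEq h1, extD_zero']
  rw [extD_pullback ((contDiffAt_Φn hq).of_le (WithTop.coe_le_coe.2 le_top)) (by rw [Φn_of_mem hq]; exact hd),
    Φn_of_mem hq, fderiv_Φn_tv hq, fderiv_Φn_tv hq] at h2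
  exact h2

/-- Forms which agree on `M` have the same exterior derivative on `M`. -/
theorem extD_congr_on_M {F : Type} [NormedAddCommGroup F] [NormedSpace ℝ F]
    {α β : (Fin 4 → ℂ) → (Fin 4 → ℂ) →L[ℝ] F} {x : Fin 4 → ℂ} (hx : x ∈ M)
    (hα : DifferentiableAt ℝ α x) (hβ : DifferentiableAt ℝ β x)
    (hz : ∀ᶠ y in 𝓝 x, y ∈ M → ∀ v, IsTangent M y v → α y v = β y v) {u v : Fin 4 → ℂ}
    (hu : IsTangent M x u) (hv : IsTangent M x v) : extD α x u v = extD β x u v := by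
  have h1 : extD (fun y => α y - β y) x u v = 0 := by
    refine extD_eq_zero_on_M hx (hα.sub hβ) ?_ hu hv
    filter_upwards [hz] with y hy hyM v hv
    show α y v - β y v = 0
    rw [hy hyM v hv, sub_self]
  rw [extD_sub' hα hβ] at h1
  exact sub_eq_zero.mp h1

/-! ### Local sections and forms -/

theorem dΦ_rot {w : ℂ} (hw : w ^ 3 = 1) (q v : ℂ × ℂ) :
    dΦ (w * q.1, w * q.2) (w * v.1, w * v.2) = dΦ q v := by
  have h1 : HasDerivAt (fun s : ℝ => q + s • v) v 0 := by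
    have := ((hasDerivAt_id (0 : ℝ)).smul_const v).const_add q
    simpa using this
  have h1a : HasDerivAt (fun s : ℝ => (q + s • v).1) v.1 0 := h1.fst
  have h1b : HasDerivAt (fun s : ℝ => (q + s • v).2) v.2 0 := h1.snd
  have h2 : HasDerivAt (fun s : ℝ => ((w * (q + s • v).1, w * (q + s • v).2) : ℂ × ℂ))
      (w * v.1, w * v.2) 0 := (h1a.const_mul w).prodMk (h1b.const_mul w)
  have h3 := hasDerivAt_Φ h2
  have h4 := hasDerivAt_Φ h1
  have h5 : (fun s : ℝ => Φ (w * (q + s • v).1, w * (q + s • v).2)) = fun s => Φ (q + s • v) := by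
    funext s
    exact Φ_rot hw _
  rw [h5] at h3
  have h6 := h3.unique h4
  simpa using h6

theorem tv_rot {w : ℂ} (hw : w * conj w = 1) (q : ℂ × ℂ) (ζ : ℂ) (r : ℝ) :
    tv (w * q.1, w * q.2) (w ^ 2 * ζ) r = (w * (tv q ζ r).1, w * (tv q ζ r).2) := by
  simp only [tv, map_mul]
  ext
  · show -(w ^ 2 * ζ) * (conj w * conj q.2) + Complex.I * r * (w * q.1) =
      w * (-ζ * conj q.2 + Complex.I * r * q.1)
    linear_combination (-w * ζ * conj q.2) * hw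
  · show w ^ 2 * ζ * (conj w * conj q.1) + Complex.I * r * (w * q.2) =
      w * (ζ * conj q.1 + Complex.I * r * q.2)
    linear_combination (w * ζ * conj q.1) * hw

/-- A local section, at a point of `M`, in terms of a point of the fibre. -/
theorem LocSec.spec {q : ℂ × ℂ} {U : Set (Fin 4 → ℂ)} {Q : (Fin 4 → ℂ) → ℂ × ℂ}
    (h : LocSec q U Q) {p : ℂ × ℂ} (hp : p ∈ S) (hpU : Φ p ∈ U) :
    ∃ w : ℂ, w ^ 3 = 1 ∧ Q (Φ p) = (w * p.1, w * p.2) ∧ ∀ ζ r,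
      fderiv ℝ Q (Φ p) (dΦ p (tv p ζ r)) = (w * (tv p ζ r).1, w * (tv p ζ r).2) := by
  obtain ⟨h1, h2⟩ := h.maps (Φ p) ⟨⟨p, hp, rfl⟩, hpU⟩
  obtain ⟨w, hw, hQ⟩ := (Φ_eq_iff hp h1).mp h2.symm
  refine ⟨w, hw, hQ, fun ζ r => ?_⟩
  have h3 := h.fderiv_tv ⟨⟨p, hp, rfl⟩, hpU⟩ (w ^ 2 * ζ) r
  rw [hQ, tv_rot (mul_conj_of_cube hw), dΦ_rot hw] at h3
  exact h3

theorem LocSec.spec' {q : ℂ × ℂ} {U : Set (Fin 4 → ℂ)} {Q : (Fin 4 → ℂ) → ℂ × ℂ}
    (h : LocSec q U Q) {x : Fin 4 → ℂ} (hx : x ∈ M ∩ U) {v : Fin 4 → ℂ} (hv : IsTangent M x v) :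
    Q x ∈ S ∧ Φ (Q x) = x ∧ ∃ ζ r, v = dΦ (Q x) (tv (Q x) ζ r) ∧
      fderiv ℝ Q x v = tv (Q x) ζ r := by
  obtain ⟨h1, h2⟩ := h.maps x hx
  refine ⟨h1, h2, ?_⟩
  rw [← h2, isTangent_iff h1] at hv
  obtain ⟨ζ, r, hv'⟩ := hv
  exact ⟨ζ, r, hv', by rw [hv']; exact h.fderiv_tv hx ζ r⟩

section Extension

variable {F : Type} [NormedAddCommGroup F] [NormedSpace ℝ F]

theorem LocSec.pull_smooth {q : ℂ × ℂ} {U : Set (Fin 4 → ℂ)} {Q : (Fin 4 → ℂ) → ℂ × ℂ}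
    (h : LocSec q U Q) {α : ℂ × ℂ → (ℂ × ℂ) →L[ℝ] F} (hα : ContDiff ℝ ∞ α) :
    ContDiffOn ℝ ∞ (pullQ Q α) U := by
  have h1 : ContDiffOn ℝ ∞ (fderiv ℝ Q) U := h.smooth.fderiv_of_isOpen h.isOpen (by simp)
  exact (hα.comp_contDiffOn h.smooth).clm_comp h1

/-- A `ℤ/3`-invariant smooth form on `ℂ²` gives, along `S`, a form on `ℂ⁴` near `M`. -/
theorem exists_ext {α : ℂ × ℂ → (ℂ × ℂ) →L[ℝ] F} (hα : ContDiff ℝ ∞ α)
    (hinv : ∀ w : ℂ, w ^ 3 = 1 → ∀ q ∈ S, ∀ v : ℂ × ℂ,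
      α (w * q.1, w * q.2) (w * v.1, w * v.2) = α q v) :
    ∃ β : (Fin 4 → ℂ) → (Fin 4 → ℂ) →L[ℝ] F, ContDiff ℝ ∞ β ∧
      ∀ q ∈ S, ∀ ζ r, β (Φ q) (dΦ q (tv q ζ r)) = α q (tv q ζ r) := by
  set t : (Fin 4 → ℂ) → Set ((Fin 4 → ℂ) →L[ℝ] F) := fun x =>
    {β | ∀ q ∈ S, Φ q = x → ∀ ζ r, β (dΦ q (tv q ζ r)) = α q (tv q ζ r)} with ht
  have hconv : ∀ x, Convex ℝ (t x) := by
    intro x β₁ h₁ β₂ h₂ a b _ _ hab q hq hqx ζ r
    rw [add_apply, smul_apply,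
      smul_apply, h₁ q hq hqx ζ r, h₂ q hq hqx ζ r, ← add_smul, hab, one_smul]
  have hMc : IsClosed M := (isCompact_sphereS.image contDiff_Φ.continuous).isClosed
  have hloc : ∀ x : Fin 4 → ℂ, ∃ U ∈ 𝓝 x, ∃ g : (Fin 4 → ℂ) → ((Fin 4 → ℂ) →L[ℝ] F),
      ContMDiffOn 𝓘(ℝ, Fin 4 → ℂ) 𝓘(ℝ, (Fin 4 → ℂ) →L[ℝ] F) ∞ g U ∧ ∀ y ∈ U, g y ∈ t y := by
    intro x
    by_cases hx : x ∈ M
    · obtain ⟨q, hq, rfl⟩ := hx
      obtain ⟨U, Q, hQ⟩ := exists_locSec hq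
      refine ⟨U, hQ.isOpen.mem_nhds hQ.mem, pullQ Q α, (hQ.pull_smooth hα).contMDiffOn, ?_⟩
      intro y hy p hp hpy ζ r
      subst hpy
      obtain ⟨w, hw, h1, h2⟩ := hQ.spec hp hy
      show α (Q (Φ p)) (fderiv ℝ Q (Φ p) (dΦ p (tv p ζ r))) = α p (tv p ζ r)
      rw [h1, h2 ζ r]
      exact hinv w hw p hp _
    · refine ⟨Mᶜ, hMc.isOpen_compl.mem_nhds hx, fun _ => 0, contMDiffOn_const, ?_⟩
      intro y hy p hp hpy
      exact absurd ⟨p, hp, hpy⟩ hy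
  obtain ⟨g, hg⟩ := exists_contMDiffMap_forall_mem_convex_of_local (𝓘(ℝ, Fin 4 → ℂ)) hconv hloc
  exact ⟨g, g.contMDiff.contDiff, fun q hq ζ r => hg (Φ q) q hq rfl ζ r⟩

end Extension

end Pool.Agent.helper65.CR
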