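import Pool.Agent.helper65.CR.Model

/-!
# The fibres of `Φ` and local sections
-/

open Filter Topology Set Metric
open scoped ContDiff ComplexConjugate

namespace Pool.Agent.helper65.CR

/-- A local section of `Φ : S → M` near `Φ q`. -/
structure LocSec (q : ℂ × ℂ) (U : Set (Fin 4 → ℂ)) (Q : (Fin 4 → ℂ) → ℂ × ℂ) : Prop where
  isOpen : IsOpen U
  mem : Φ q ∈ U
  smooth : ContDiffOn ℝ ∞ Q U
  base : Q (Φ q) = q
  maps : ∀ x ∈ M ∩ U, Q x ∈ S ∧ Φ (Q x) = x

theorem mul_conj_of_cube {w : ℂ} (hw : w ^ 3 = 1) : w * conj w = 1 := by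
  have h1 : ‖w‖ = 1 := Complex.norm_eq_one_of_pow_eq_one hw (by norm_num)
  rw [Complex.mul_conj, Complex.normSq_eq_norm_sq, h1]
  simp

theorem rot_mem_S {w : ℂ} (hw : w * conj w = 1) {q : ℂ × ℂ} (hq : q ∈ S) :
    ((w * q.1, w * q.2) : ℂ × ℂ) ∈ S := by
  have h : q.1 * conj q.1 + q.2 * conj q.2 = 1 := hq
  show w * q.1 * conj (w * q.1) + w * q.2 * conj (w * q.2) = 1
  rw [map_mul, map_mul]
  linear_combination h + (q.1 * conj q.1 + q.2 * conj q.2) * hw

theorem Φ_rot {w : ℂ} (hw : w ^ 3 = 1) (q : ℂ × ℂ) : Φ (w * q.1, w * q.2) = Φ q := by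
  have h := mul_conj_of_cube hw
  obtain ⟨a, b⟩ := q
  funext i
  fin_cases i
  · simp only [Φ, map_mul, Fin.zero_eta, Matrix.cons_val_zero]
    linear_combination (2 * a ^ 3) * hw - 3 * a ^ 2 * conj b ^ 2 * (w * conj w + 1) * h
  · simp only [Φ, map_mul, Fin.mk_one, Matrix.cons_val]
    linear_combination (2 * a ^ 2 * b) * hw - 3 * a * b * conj b ^ 2 * (w * conj w + 1) * h
  · simp only [Φ, map_mul, Fin.reduceFinMk, Matrix.cons_val]
    linear_combination (2 * a * b ^ 2) * hw - 3 * b ^ 2 * conj b ^ 2 * (w * conj w + 1) * h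
  · simp only [Φ, map_mul, Fin.reduceFinMk, Matrix.cons_val]
    linear_combination (2 * b ^ 3) * hw + (3 * conj a * b + 3 * conj a * b * (b * conj b) *
      (w * conj w + 1)) * h

theorem Φ_rel1 {q : ℂ × ℂ} : q.2 * Φ q 0 = q.1 * Φ q 1 := by
  simp [Φ]
  ring

theorem Φ_rel2 {q : ℂ × ℂ} : q.2 * Φ q 1 = q.1 * Φ q 2 := by
  simp [Φ]
  ring

theorem Φ_rel3 {q : ℂ × ℂ} (hq : q ∈ S) : q.2 * (Φ q 2 + 3) = q.1 * Φ q 3 := by
  have h : q.1 * conj q.1 + q.2 * conj q.2 = 1 := hq
  simp [Φ]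
  linear_combination (-3 * q.2 * (1 + q.2 * conj q.2)) * h

/-- Parallel points of the sphere differ by a phase. -/
theorem exists_phase {q q' : ℂ × ℂ} (hq : q ∈ S) (hq' : q' ∈ S) (h : q.1 * q'.2 = q'.1 * q.2) :
    ∃ w : ℂ, w * conj w = 1 ∧ q' = (w * q.1, w * q.2) := by
  obtain ⟨a, b⟩ := q
  obtain ⟨c, d⟩ := q'
  have h1 : a * conj a + b * conj b = 1 := hq
  have h2 : c * conj c + d * conj d = 1 := hq'
  simp only at h
  have e1 : (c * conj a + d * conj b) * a = c := by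
    linear_combination c * h1 + conj b * h
  have e2 : (c * conj a + d * conj b) * b = d := by
    linear_combination d * h1 - conj a * h
  refine ⟨c * conj a + d * conj b, ?_, ?_⟩
  · have e1' := congrArg conj e1
    have e2' := congrArg conj e2
    rw [map_mul] at e1' e2'
    set w := c * conj a + d * conj b with hw
    calc w * conj w = w * conj w * (a * conj a + b * conj b) := by rw [h1, mul_one]
      _ = (w * a) * (conj w * conj a) + (w * b) * (conj w * conj b) := by ring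
      _ = 1 := by rw [e1, e2, e1', e2', h2]
  · ext
    · exact e1.symm
    · exact e2.symm

/-- The fibres of `Φ`, one direction, for a phase. -/
theorem cube_of_Φ_eq {w : ℂ} (hw : w * conj w = 1) {q : ℂ × ℂ} (hq : q ∈ S)
    (h : Φ (w * q.1, w * q.2) = Φ q) : w ^ 3 = 1 := by
  obtain ⟨a, b⟩ := q
  have h1 : a * conj a + b * conj b = 1 := hq
  have h0 := congrFun h 0
  have h3 := congrFun h 3
  simp only [Φ, map_mul, Matrix.cons_val_zero, Matrix.cons_val] at h0 h3
  have e0 : (w ^ 3 - 1) * a ^ 3 = 0 := by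
    linear_combination (1 / 2 : ℂ) * h0 + (3 / 2 : ℂ) * a ^ 2 * conj b ^ 2 * (w * conj w + 1) * hw
  have e3 : (w ^ 3 - 1) * b ^ 3 = 0 := by
    linear_combination (1 / 2 : ℂ) * h3 - (3 / 2 * conj a * b + 3 / 2 * conj a * b * (b * conj b) *
      (w * conj w + 1)) * hw
  by_cases ha : a = 0
  · have hb : b ≠ 0 := by
      rintro rfl
      simp [ha] at h1
    have := (mul_eq_zero.mp e3).resolve_right (pow_ne_zero 3 hb)
    linear_combination this
  · have := (mul_eq_zero.mp e0).resolve_right (pow_ne_zero 3 ha)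
    linear_combination this

/-- The fibres of `Φ`. -/
theorem Φ_eq_iff {q q' : ℂ × ℂ} (hq : q ∈ S) (hq' : q' ∈ S) :
    Φ q = Φ q' ↔ ∃ w : ℂ, w ^ 3 = 1 ∧ q' = (w * q.1, w * q.2) := by
  constructor
  · intro h
    have hdet : q.1 * q'.2 = q'.1 * q.2 := by
      by_cases h2 : Φ q 2 = 0
      · have r3 := Φ_rel3 hq
        have r3' := Φ_rel3 hq'
        rw [← h] at r3'
        rw [h2] at r3 r3'
        linear_combination (1 / 3 : ℂ) * (q.1 * r3' - q'.1 * r3)
      · have r2 := Φ_rel2 (q := q)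
        have r2' := Φ_rel2 (q := q')
        rw [← h] at r2'
        have : (q.1 * q'.2 - q'.1 * q.2) * Φ q 2 = 0 := by
          linear_combination -q'.2 * r2 + q.2 * r2'
        have := (mul_eq_zero.mp this).resolve_right h2
        linear_combination this
    obtain ⟨w, hw, rfl⟩ := exists_phase hq hq' hdet
    exact ⟨w, cube_of_Φ_eq hw hq h.symm, rfl⟩
  · rintro ⟨w, hw, rfl⟩
    exact (Φ_rot hw q).symm

end Pool.Agent.helper65.CR
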