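import Pool.Agent.helper45.CR.Ext

/-!
# The Webster coframe on the sphere
-/

open Filter Topology Set Metric
open scoped ContDiff ComplexConjugate

namespace Pool.Agent.helper65.CR

/-! ### Basic forms -/

noncomputable def dA : (ℂ × ℂ) →L[ℝ] ℂ := ContinuousLinearMap.fst ℝ ℂ ℂ
noncomputable def dB : (ℂ × ℂ) →L[ℝ] ℂ := ContinuousLinearMap.snd ℝ ℂ ℂ
noncomputable def dA' : (ℂ × ℂ) →L[ℝ] ℂ := Complex.conjCLE.toContinuousLinearMap.comp dA
noncomputable def dB' : (ℂ × ℂ) →L[ℝ] ℂ := Complex.conjCLE.toContinuousLinearMap.comp dB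

@[simp] theorem dA_apply (v : ℂ × ℂ) : dA v = v.1 := rfl
@[simp] theorem dB_apply (v : ℂ × ℂ) : dB v = v.2 := rfl
@[simp] theorem dA'_apply (v : ℂ × ℂ) : dA' v = conj v.1 := rfl
@[simp] theorem dB'_apply (v : ℂ × ℂ) : dB' v = conj v.2 := rfl

/-- `λ = a db - b da`. -/
noncomputable def lamF (q : ℂ × ℂ) : (ℂ × ℂ) →L[ℝ] ℂ := q.1 • dB - q.2 • dA

/-- `λ̄`. -/
noncomputable def lamF' (q : ℂ × ℂ) : (ℂ × ℂ) →L[ℝ] ℂ := conj q.1 • dB' - conj q.2 • dA'

/-- The contact form `θ = Im (ā da + b̄ db + 2 b λ)` as a complex valued form. -/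
noncomputable def thC (q : ℂ × ℂ) : (ℂ × ℂ) →L[ℝ] ℂ :=
  (-(Complex.I / 2)) • ((conj q.1 • dA + conj q.2 • dB + (2 * q.2) • lamF q) -
    (q.1 • dA' + q.2 • dB' + (2 * conj q.2) • lamF' q))

/-- The contact form. -/
noncomputable def thR (q : ℂ × ℂ) : (ℂ × ℂ) →L[ℝ] ℝ := Complex.reCLM.comp (thC q)

/-- `N = 1 + 6 |b|²`. -/
noncomputable def Nf (q : ℂ × ℂ) : ℂ := 1 + 6 * q.2 * conj q.2

noncomputable def NR (q : ℂ × ℂ) : ℝ := 1 + 6 * Complex.normSq q.2

/-- `β = -3 i b̄ / N`. -/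
noncomputable def bet (q : ℂ × ℂ) : ℂ := -3 * Complex.I * conj q.2 * (Nf q)⁻¹

noncomputable def bet' (q : ℂ × ℂ) : ℂ := 3 * Complex.I * q.2 * (Nf q)⁻¹

/-- `μ = λ + β θ`. -/
noncomputable def muF (q : ℂ × ℂ) : (ℂ × ℂ) →L[ℝ] ℂ := lamF q + bet q • thC q

/-- `μ̄`. -/
noncomputable def muF' (q : ℂ × ℂ) : (ℂ × ℂ) →L[ℝ] ℂ := lamF' q + bet' q • thC q

noncomputable def omX (q : ℂ × ℂ) : ℂ := 6 * conj q.1 * conj q.2 * (Nf q)⁻¹ - q.2

noncomputable def omZ (q : ℂ × ℂ) : ℂ :=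
  -2 * Complex.I + 3 * Complex.I * q.2 * conj q.2 * (Nf q)⁻¹ +
    18 * Complex.I * conj q.1 * conj q.2 ^ 2 * (Nf q)⁻¹ ^ 2

/-- The connection form. -/
noncomputable def omF (q : ℂ × ℂ) : (ℂ × ℂ) →L[ℝ] ℂ :=
  omX q • muF q + conj q.2 • muF' q + omZ q • thC q

/-- The torsion. -/
noncomputable def toA (q : ℂ × ℂ) : ℂ :=
  (-9 * Complex.I * conj q.2 ^ 2 + 3 * Complex.I * q.1) * (Nf q)⁻¹ -
    18 * Complex.I * q.1 * q.2 * conj q.2 * (Nf q)⁻¹ ^ 2

theorem NR_pos (q : ℂ × ℂ) : 0 < NR q := by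
  unfold NR
  have := Complex.normSq_nonneg q.2
  positivity

theorem Nf_eq (q : ℂ × ℂ) : Nf q = (NR q : ℂ) := by
  unfold Nf NR
  rw [mul_assoc, Complex.mul_conj]
  push_cast
  rfl

theorem Nf_ne (q : ℂ × ℂ) : Nf q ≠ 0 := by
  rw [Nf_eq]
  exact_mod_cast (NR_pos q).ne'

theorem conj_Nf_inv (q : ℂ × ℂ) : conj (Nf q)⁻¹ = (Nf q)⁻¹ := by
  rw [Nf_eq, map_inv₀, Complex.conj_ofReal]

theorem conj_bet (q : ℂ × ℂ) : conj (bet q) = bet' q := by
  unfold bet bet'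
  simp only [map_mul, map_neg, Complex.conj_conj, Complex.conj_I, conj_Nf_inv]
  rw [Complex.conj_ofNat]
  ring

theorem Nf_mul_bet (q : ℂ × ℂ) : Nf q * bet q = -3 * Complex.I * conj q.2 := by
  unfold bet
  have := Nf_ne q
  field_simp

theorem Nf_mul_bet' (q : ℂ × ℂ) : Nf q * bet' q = 3 * Complex.I * q.2 := by
  unfold bet'
  have := Nf_ne q
  field_simp

/-! ### Evaluation -/

theorem lamF_apply (q v : ℂ × ℂ) : lamF q v = q.1 * v.2 - q.2 * v.1 := rfl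

theorem lamF'_apply (q v : ℂ × ℂ) : lamF' q v = conj q.1 * conj v.2 - conj q.2 * conj v.1 := rfl

theorem conj_lamF (q v : ℂ × ℂ) : conj (lamF q v) = lamF' q v := by
  simp [lamF_apply, lamF'_apply]

theorem thC_apply (q v : ℂ × ℂ) : thC q v =
    -(Complex.I / 2) * ((conj q.1 * v.1 + conj q.2 * v.2 + 2 * q.2 * lamF q v) -
      (q.1 * conj v.1 + q.2 * conj v.2 + 2 * conj q.2 * lamF' q v)) := rfl

theorem conj_thC (q v : ℂ × ℂ) : conj (thC q v) = thC q v := by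
  rw [thC_apply]
  simp only [map_mul, map_add, map_sub, map_neg, map_div₀, Complex.conj_conj, Complex.conj_I,
    Complex.conj_ofNat, ← conj_lamF]
  ring

theorem thR_apply (q v : ℂ × ℂ) : ((thR q v : ℝ) : ℂ) = thC q v :=
  (Complex.conj_eq_iff_re.mp (conj_thC q v))

theorem muF_apply (q v : ℂ × ℂ) : muF q v = lamF q v + bet q * thC q v := rfl

theorem muF'_apply (q v : ℂ × ℂ) : muF' q v = lamF' q v + bet' q * thC q v := rfl

theorem conj_muF (q v : ℂ × ℂ) : conj (muF q v) = muF' q v := by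
  rw [muF_apply, muF'_apply, map_add, map_mul, conj_lamF, conj_thC, conj_bet]

theorem omF_apply (q v : ℂ × ℂ) : omF q v =
    omX q * muF q v + conj q.2 * muF' q v + omZ q * thC q v := rfl

/-! ### Smoothness -/

section Smooth

theorem cd_fst : ContDiff ℝ ∞ (fun q : ℂ × ℂ => q.1) := contDiff_fst
theorem cd_snd : ContDiff ℝ ∞ (fun q : ℂ × ℂ => q.2) := contDiff_snd
theorem cd_fst' : ContDiff ℝ ∞ (fun q : ℂ × ℂ => conj q.1) := contDiff_conj.comp contDiff_fst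
theorem cd_snd' : ContDiff ℝ ∞ (fun q : ℂ × ℂ => conj q.2) := contDiff_conj.comp contDiff_snd
theorem cd_const (c : ℂ) : ContDiff ℝ ∞ (fun _ : ℂ × ℂ => c) := contDiff_const
theorem cd_constF (c : (ℂ × ℂ) →L[ℝ] ℂ) : ContDiff ℝ ∞ (fun _ : ℂ × ℂ => c) := contDiff_const

theorem cd_smul {f : ℂ × ℂ → ℂ} {α : ℂ × ℂ → (ℂ × ℂ) →L[ℝ] ℂ} (hf : ContDiff ℝ ∞ f)
    (hα : ContDiff ℝ ∞ α) : ContDiff ℝ ∞ (fun p => f p • α p) := hf.smul hα

theorem cd_add {α β : ℂ × ℂ → (ℂ × ℂ) →L[ℝ] ℂ} (hα : ContDiff ℝ ∞ α)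
    (hβ : ContDiff ℝ ∞ β) : ContDiff ℝ ∞ (fun p => α p + β p) := hα.add hβ

theorem cd_sub {α β : ℂ × ℂ → (ℂ × ℂ) →L[ℝ] ℂ} (hα : ContDiff ℝ ∞ α)
    (hβ : ContDiff ℝ ∞ β) : ContDiff ℝ ∞ (fun p => α p - β p) := hα.sub hβ

theorem cd_two_snd : ContDiff ℝ ∞ (fun q : ℂ × ℂ => 2 * q.2) := (cd_const 2).mul cd_snd
theorem cd_two_snd' : ContDiff ℝ ∞ (fun q : ℂ × ℂ => 2 * conj q.2) := (cd_const 2).mul cd_snd'

theorem cd_lamF : ContDiff ℝ ∞ lamF :=
  (cd_fst.smul (cd_constF dB)).sub (cd_snd.smul (cd_constF dA))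

theorem cd_lamF' : ContDiff ℝ ∞ lamF' :=
  (cd_fst'.smul (cd_constF dB')).sub (cd_snd'.smul (cd_constF dA'))

theorem cd_thC : ContDiff ℝ ∞ thC :=
  cd_smul (cd_const _) (cd_sub
    (cd_add (cd_add (cd_smul cd_fst' (cd_constF dA)) (cd_smul cd_snd' (cd_constF dB)))
      (cd_smul cd_two_snd cd_lamF))
    (cd_add (cd_add (cd_smul cd_fst (cd_constF dA')) (cd_smul cd_snd (cd_constF dB')))
      (cd_smul cd_two_snd' cd_lamF')))

theorem cd_thR : ContDiff ℝ ∞ thR := contDiff_const.clm_comp cd_thC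

theorem cd_NR : ContDiff ℝ ∞ NR :=
  contDiff_const.add (contDiff_const.mul (contDiff_normSq.comp contDiff_snd))

theorem cd_Nf : ContDiff ℝ ∞ Nf := (cd_const 1).add (((cd_const 6).mul cd_snd).mul cd_snd')

theorem cd_Ninv : ContDiff ℝ ∞ (fun q => (Nf q)⁻¹) := cd_Nf.inv Nf_ne

theorem cd_bet : ContDiff ℝ ∞ bet :=
  (((cd_const _).mul (cd_const _)).mul cd_snd').mul cd_Ninv

theorem cd_bet' : ContDiff ℝ ∞ bet' :=
  (((cd_const _).mul (cd_const _)).mul cd_snd).mul cd_Ninv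

theorem cd_muF : ContDiff ℝ ∞ muF := cd_lamF.add (cd_bet.smul cd_thC)

theorem cd_muF' : ContDiff ℝ ∞ muF' := cd_lamF'.add (cd_bet'.smul cd_thC)

theorem cd_omX : ContDiff ℝ ∞ omX :=
  ((((cd_const _).mul cd_fst').mul cd_snd').mul cd_Ninv).sub cd_snd

theorem cd_omZ : ContDiff ℝ ∞ omZ :=
  (((cd_const _).mul (cd_const _)).add
    (((((cd_const _).mul (cd_const _)).mul cd_snd).mul cd_snd').mul cd_Ninv)).add
    (((((cd_const _).mul (cd_const _)).mul cd_fst').mul (cd_snd'.pow 2)).mul (cd_Ninv.pow 2))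

theorem cd_omF : ContDiff ℝ ∞ omF :=
  ((cd_omX.smul cd_muF).add (cd_snd'.smul cd_muF')).add (cd_omZ.smul cd_thC)

theorem cd_toA : ContDiff ℝ ∞ toA :=
  (((((cd_const _).mul (cd_const _)).mul (cd_snd'.pow 2)).add
    (((cd_const _).mul (cd_const _)).mul cd_fst)).mul cd_Ninv).sub
    ((((((cd_const _).mul (cd_const _)).mul cd_fst).mul cd_snd).mul cd_snd').mul (cd_Ninv.pow 2))

end Smooth

/-! ### Derivatives of functions -/

section Deriv

variable {q u v : ℂ × ℂ}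

theorem diffAt {F : Type} [NormedAddCommGroup F] [NormedSpace ℝ F] {f : ℂ × ℂ → F}
    (hf : ContDiff ℝ ∞ f) (q : ℂ × ℂ) : DifferentiableAt ℝ f q :=
  hf.differentiable (by simp) q

theorem line (q u : ℂ × ℂ) : HasDerivAt (fun s : ℝ => q + s • u) u 0 := by
  have := ((hasDerivAt_id (0 : ℝ)).smul_const u).const_add q
  simpa using this

theorem fderiv_eq_of_line {q u : ℂ × ℂ} {f : ℂ × ℂ → ℂ} {d : ℂ} (hf : ContDiff ℝ ∞ f)
    (h : HasDerivAt (fun s : ℝ => f (q + s • u)) d 0) : fderiv ℝ f q u = d := by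
  have h1 : HasFDerivAt f (fderiv ℝ f q) (q + (0 : ℝ) • u) := by
    simpa using (diffAt hf q).hasFDerivAt
  exact (h1.comp_hasDerivAt (0 : ℝ) (line q u)).unique h

theorem l1 (q u : ℂ × ℂ) : HasDerivAt (fun s : ℝ => (q + s • u).1) u.1 0 := (line q u).fst
theorem l2 (q u : ℂ × ℂ) : HasDerivAt (fun s : ℝ => (q + s • u).2) u.2 0 := (line q u).snd
theorem l1' (q u : ℂ × ℂ) : HasDerivAt (fun s : ℝ => conj (q + s • u).1) (conj u.1) 0 :=
  HasDerivAt.conj' (l1 q u)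
theorem l2' (q u : ℂ × ℂ) : HasDerivAt (fun s : ℝ => conj (q + s • u).2) (conj u.2) 0 :=
  HasDerivAt.conj' (l2 q u)

theorem fd_fst : fderiv ℝ (fun q : ℂ × ℂ => q.1) q u = u.1 := fderiv_eq_of_line cd_fst (l1 q u)
theorem fd_snd : fderiv ℝ (fun q : ℂ × ℂ => q.2) q u = u.2 := fderiv_eq_of_line cd_snd (l2 q u)
theorem fd_fst' : fderiv ℝ (fun q : ℂ × ℂ => conj q.1) q u = conj u.1 :=
  fderiv_eq_of_line cd_fst' (l1' q u)
theorem fd_snd' : fderiv ℝ (fun q : ℂ × ℂ => conj q.2) q u = conj u.2 :=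
  fderiv_eq_of_line cd_snd' (l2' q u)

theorem lN (q u : ℂ × ℂ) : HasDerivAt (fun s : ℝ => Nf (q + s • u))
    (6 * (u.2 * conj q.2 + q.2 * conj u.2)) 0 := by
  refine ((((l2 q u).const_mul 6).mul (l2' q u)).const_add 1).congr_deriv ?_
  simp
  ring

theorem fd_Nf : fderiv ℝ Nf q u = 6 * (u.2 * conj q.2 + q.2 * conj u.2) :=
  fderiv_eq_of_line cd_Nf (lN q u)

theorem fd_bet : fderiv ℝ bet q u = -3 * Complex.I * conj u.2 * (Nf q)⁻¹ +
    3 * Complex.I * conj q.2 * (Nf q)⁻¹ ^ 2 * (6 * (u.2 * conj q.2 + q.2 * conj u.2)) := by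
  apply fderiv_eq_of_line cd_bet
  have h1 := (lN q u).inv (Nf_ne _)
  refine (((l2' q u).const_mul (-3 * Complex.I)).mul h1).congr_deriv ?_
  simp
  have := Nf_ne q
  field_simp

end Deriv

/-! ### Exterior derivatives -/

section Ext

variable {q u v : ℂ × ℂ} {f : ℂ × ℂ → ℂ} {α β : ℂ × ℂ → (ℂ × ℂ) →L[ℝ] ℂ}

theorem extD_smul' (hf : ContDiff ℝ ∞ f) (hα : ContDiff ℝ ∞ α) (q u v : ℂ × ℂ) :
    extD (fun p => f p • α p) q u v =
      fderiv ℝ f q u * α q v - fderiv ℝ f q v * α q u + f q * extD α q u v := by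
  unfold extD
  rw [fderiv_fun_smul (diffAt hf q) (diffAt hα q)]
  simp only [add_apply, smul_apply, ContinuousLinearMap.smulRight_apply, smul_eq_mul]
  ring

theorem extD_add' (hα : ContDiff ℝ ∞ α) (hβ : ContDiff ℝ ∞ β) (q u v : ℂ × ℂ) :
    extD (fun p => α p + β p) q u v = extD α q u v + extD β q u v := by
  unfold extD
  rw [fderiv_fun_add (diffAt hα q) (diffAt hβ q)]
  simp only [add_apply]
  ring

theorem extD_sub'' (hα : ContDiff ℝ ∞ α) (hβ : ContDiff ℝ ∞ β) (q u v : ℂ × ℂ) :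
    extD (fun p => α p - β p) q u v = extD α q u v - extD β q u v :=
  extD_sub' (diffAt hα q) (diffAt hβ q) u v

theorem extD_const' (c : (ℂ × ℂ) →L[ℝ] ℂ) (q u v : ℂ × ℂ) : extD (fun _ => c) q u v = 0 := by
  simp [extD]

theorem extD_lamF (q u v : ℂ × ℂ) : extD lamF q u v = 2 * (u.1 * v.2 - v.1 * u.2) := by
  show extD (fun p : ℂ × ℂ => p.1 • dB - p.2 • dA) q u v = _
  rw [extD_sub'' (cd_smul cd_fst (cd_constF dB)) (cd_smul cd_snd (cd_constF dA)),
    extD_smul' cd_fst (cd_constF dB), extD_smul' cd_snd (cd_constF dA), extD_const', extD_const',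
    fd_fst, fd_fst, fd_snd, fd_snd]
  simp only [dA_apply, dB_apply]
  ring

theorem extD_lamF' (q u v : ℂ × ℂ) : extD lamF' q u v =
    2 * (conj u.1 * conj v.2 - conj v.1 * conj u.2) := by
  show extD (fun p : ℂ × ℂ => conj p.1 • dB' - conj p.2 • dA') q u v = _
  rw [extD_sub'' (cd_smul cd_fst' (cd_constF dB')) (cd_smul cd_snd' (cd_constF dA')),
    extD_smul' cd_fst' (cd_constF dB'), extD_smul' cd_snd' (cd_constF dA'), extD_const',
    extD_const', fd_fst', fd_fst', fd_snd', fd_snd']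
  simp only [dA'_apply, dB'_apply]
  ring

theorem fd_two_snd : fderiv ℝ (fun q : ℂ × ℂ => 2 * q.2) q u = 2 * u.2 :=
  fderiv_eq_of_line ((cd_const 2).mul cd_snd) ((l2 q u).const_mul 2)

theorem fd_two_snd' : fderiv ℝ (fun q : ℂ × ℂ => 2 * conj q.2) q u = 2 * conj u.2 :=
  fderiv_eq_of_line ((cd_const 2).mul cd_snd') ((l2' q u).const_mul 2)

theorem extD_thC (q u v : ℂ × ℂ) : extD thC q u v = -(Complex.I / 2) *
    ((conj u.1 * v.1 - conj v.1 * u.1 + (conj u.2 * v.2 - conj v.2 * u.2) +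
      (2 * u.2 * lamF q v - 2 * v.2 * lamF q u + 2 * q.2 * (2 * (u.1 * v.2 - v.1 * u.2)))) -
     (u.1 * conj v.1 - v.1 * conj u.1 + (u.2 * conj v.2 - v.2 * conj u.2) +
      (2 * conj u.2 * lamF' q v - 2 * conj v.2 * lamF' q u +
        2 * conj q.2 * (2 * (conj u.1 * conj v.2 - conj v.1 * conj u.2))))) := by
  have a1 := cd_smul cd_fst' (cd_constF dA)
  have a2 := cd_smul cd_snd' (cd_constF dB)
  have a3 := cd_smul cd_two_snd cd_lamF
  have b1 := cd_smul cd_fst (cd_constF dA')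
  have b2 := cd_smul cd_snd (cd_constF dB')
  have b3 := cd_smul cd_two_snd' cd_lamF'
  show extD (fun q : ℂ × ℂ => (-(Complex.I / 2)) •
    ((conj q.1 • dA + conj q.2 • dB + (2 * q.2) • lamF q) -
    (q.1 • dA' + q.2 • dB' + (2 * conj q.2) • lamF' q))) q u v = _
  rw [extD_smul' (cd_const _) (cd_sub (cd_add (cd_add a1 a2) a3) (cd_add (cd_add b1 b2) b3)),
    extD_sub'' (cd_add (cd_add a1 a2) a3) (cd_add (cd_add b1 b2) b3),
    extD_add' (cd_add a1 a2) a3, extD_add' a1 a2, extD_add' (cd_add b1 b2) b3, extD_add' b1 b2,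
    extD_smul' cd_fst' (cd_constF dA), extD_smul' cd_snd' (cd_constF dB),
    extD_smul' cd_two_snd cd_lamF,
    extD_smul' cd_fst (cd_constF dA'), extD_smul' cd_snd (cd_constF dB'),
    extD_smul' cd_two_snd' cd_lamF', extD_lamF, extD_lamF']
  simp only [extD_const', fd_fst, fd_snd, fd_fst', fd_snd', fd_two_snd, fd_two_snd', dA_apply,
    dB_apply, dA'_apply, dB'_apply, fderiv_fun_const, Pi.zero_apply, zero_apply]
  ring

theorem extD_muF (q u v : ℂ × ℂ) : extD muF q u v = 2 * (u.1 * v.2 - v.1 * u.2) +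
    (fderiv ℝ bet q u * thC q v - fderiv ℝ bet q v * thC q u + bet q * extD thC q u v) := by
  show extD (fun p => lamF p + bet p • thC p) q u v = _
  rw [extD_add' cd_lamF (cd_smul cd_bet cd_thC), extD_smul' cd_bet cd_thC, extD_lamF]

end Ext

/-! ### The structure equations on the sphere -/

section Sphere

variable {q : ℂ × ℂ} (hq : q ∈ S) (ζ ζ' : ℂ) (x x' : ℝ)

include hq in
theorem lamF_tv : lamF q (tv q ζ x) = ζ := tv_lam hq ζ x

include hq in
theorem lamF'_tv : lamF' q (tv q ζ x) = conj ζ := by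
  rw [← conj_lamF, lamF_tv hq]

include hq in
theorem thC_tv : thC q (tv q ζ x) = x - Complex.I * (q.2 * ζ - conj q.2 * conj ζ) := by
  have h1 := tv_re hq ζ x
  have h1' := congrArg conj h1
  simp only [map_add, map_mul, Complex.conj_conj, Complex.conj_I, Complex.conj_ofReal] at h1'
  rw [thC_apply, lamF_tv hq, lamF'_tv hq]
  linear_combination (-(Complex.I / 2)) * h1 + (Complex.I / 2) * h1' -
    (x : ℂ) * Complex.I_sq

include hq in
theorem thR_tv : thR q (tv q ζ x) = x + 2 * (q.2 * ζ).im := by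
  have h := thC_tv hq ζ x
  rw [← thR_apply] at h
  have h2 : Complex.I * (q.2 * ζ - conj q.2 * conj ζ) = ((-2 * (q.2 * ζ).im : ℝ) : ℂ) := by
    have := Complex.sub_conj (q.2 * ζ)
    rw [map_mul] at this
    rw [this]
    push_cast
    linear_combination (2 * ((q.2 * ζ).im : ℂ)) * Complex.I_sq
  rw [h2, ← Complex.ofReal_sub] at h
  have h3 := Complex.ofReal_injective h
  linarith

include hq in
theorem extD_thC_tv : extD thC q (tv q ζ x) (tv q ζ' x') =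
    Complex.I * (ζ * conj ζ' - ζ' * conj ζ) + 3 * q.2 * (x * ζ' - x' * ζ) +
      3 * conj q.2 * (x * conj ζ' - x' * conj ζ) := by
  have h : q.1 * conj q.1 + q.2 * conj q.2 = 1 := hq
  have hI := Complex.I_sq
  rw [extD_thC, lamF_tv hq, lamF_tv hq, lamF'_tv hq, lamF'_tv hq]
  obtain ⟨a, b⟩ := q
  simp only [tv, map_add, map_mul, map_neg, Complex.conj_conj, Complex.conj_I,
    Complex.conj_ofReal] at h ⊢
  set A := conj a
  set B := conj b
  set z := conj ζ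
  set z' := conj ζ'
  linear_combination (Complex.I * (ζ * z' - ζ' * z) - 2 * Complex.I ^ 2 *
    (b * (x * ζ' - x' * ζ) + B * (x * z' - x' * z))) * h +
    (-3 * b * (x * ζ' - x' * ζ) - 3 * B * (x * z' - x' * z)) * hI

/-- The first structure equation: `dθ = i N μ ∧ μ̄`. -/
theorem levi_S {q : ℂ × ℂ} (hq : q ∈ S) (ζ ζ' : ℂ) (x x' : ℝ) :
    extD thC q (tv q ζ x) (tv q ζ' x') = Complex.I * Nf q *
      (muF q (tv q ζ x) * muF' q (tv q ζ' x') - muF q (tv q ζ' x') * muF' q (tv q ζ x)) := by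
  rw [extD_thC_tv hq, muF_apply, muF_apply, muF'_apply, muF'_apply, lamF_tv hq, lamF_tv hq,
    lamF'_tv hq, lamF'_tv hq, thC_tv hq, thC_tv hq]
  have h1 := Nf_mul_bet q
  have h2 := Nf_mul_bet' q
  have h3 : Nf q = 1 + 6 * q.2 * conj q.2 := rfl
  have hI := Complex.I_sq
  generalize bet q = β at *
  generalize bet' q = β' at *
  generalize Nf q = N at *
  subst h3
  generalize conj q.2 = B at *
  generalize q.2 = b at *
  generalize conj ζ = z
  generalize conj ζ' = z'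
  linear_combination
    (-Complex.I * ((x - Complex.I * (b * ζ - B * z)) * z' -
      (x' - Complex.I * (b * ζ' - B * z')) * z)) * h1 +
    (-Complex.I * ((x' - Complex.I * (b * ζ' - B * z')) * ζ -
      (x - Complex.I * (b * ζ - B * z)) * ζ')) * h2 +
    (3 * B * ((x - Complex.I * (b * ζ - B * z)) * z' -
      (x' - Complex.I * (b * ζ' - B * z')) * z) -
     3 * b * ((x' - Complex.I * (b * ζ' - B * z')) * ζ -
      (x - Complex.I * (b * ζ - B * z)) * ζ')) * hI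

/-- The second structure equation. -/
theorem torsion_S {q : ℂ × ℂ} (hq : q ∈ S) (ζ ζ' : ℂ) (x x' : ℝ) :
    extD muF q (tv q ζ x) (tv q ζ' x') =
      (muF q (tv q ζ x) * omF q (tv q ζ' x') - muF q (tv q ζ' x') * omF q (tv q ζ x)) +
      toA q * (thC q (tv q ζ x) * muF' q (tv q ζ' x') -
        thC q (tv q ζ' x') * muF' q (tv q ζ x)) := by
  have h : q.1 * conj q.1 + q.2 * conj q.2 = 1 := hq
  have hI := Complex.I_sq
  have e1 : (tv q ζ x).1 * (tv q ζ' x').2 - (tv q ζ' x').1 * (tv q ζ x).2 =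
      -Complex.I * (ζ * x' - ζ' * x) := by
    simp only [tv]
    linear_combination (-Complex.I * (ζ * x' - ζ' * x)) * h
  have e2 : ∀ (ζ : ℂ) (x : ℝ), fderiv ℝ bet q (tv q ζ x) =
      ζ * (-3 * Complex.I * q.2 * conj q.2 * (Nf q)⁻¹ +
        18 * Complex.I * conj q.1 * conj q.2 ^ 2 * (Nf q)⁻¹ ^ 2) +
      conj ζ * (-3 * Complex.I * q.1 * (Nf q)⁻¹ + 3 * Complex.I * conj q.2 ^ 2 * (Nf q)⁻¹ +
        18 * Complex.I * q.1 * q.2 * conj q.2 * (Nf q)⁻¹ ^ 2) -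
      3 * conj q.2 * (Nf q)⁻¹ * (x - Complex.I * (q.2 * ζ - conj q.2 * conj ζ)) := by
    intro ζ x
    rw [fd_bet]
    simp only [tv, map_add, map_mul, Complex.conj_conj, Complex.conj_I, Complex.conj_ofReal]
    linear_combination (3 * (Nf q)⁻¹ * x * conj q.2) * hI
  rw [extD_muF, e1, e2, e2, levi_S hq, omF_apply, omF_apply, muF_apply, muF_apply, muF'_apply,
    muF'_apply, lamF_tv hq, lamF_tv hq, lamF'_tv hq, lamF'_tv hq, thC_tv hq, thC_tv hq]
  have h1 := Nf_mul_bet q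
  have hb : bet q = -3 * Complex.I * conj q.2 * (Nf q)⁻¹ := rfl
  have hb' : bet' q = 3 * Complex.I * q.2 * (Nf q)⁻¹ := rfl
  have hX : omX q = 6 * conj q.1 * conj q.2 * (Nf q)⁻¹ - q.2 := rfl
  have hZ : omZ q = -2 * Complex.I + 3 * Complex.I * q.2 * conj q.2 * (Nf q)⁻¹ +
    18 * Complex.I * conj q.1 * conj q.2 ^ 2 * (Nf q)⁻¹ ^ 2 := rfl
  have hA : toA q = (-9 * Complex.I * conj q.2 ^ 2 + 3 * Complex.I * q.1) * (Nf q)⁻¹ -
    18 * Complex.I * q.1 * q.2 * conj q.2 * (Nf q)⁻¹ ^ 2 := rfl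
  rw [hX, hZ, hA]
  set t : ℂ := x - Complex.I * (q.2 * ζ - conj q.2 * conj ζ) with ht
  set t' : ℂ := x' - Complex.I * (q.2 * ζ' - conj q.2 * conj ζ') with ht'
  have hx : (x : ℂ) = t + Complex.I * (q.2 * ζ - conj q.2 * conj ζ) := by rw [ht]; ring
  have hx' : (x' : ℂ) = t' + Complex.I * (q.2 * ζ' - conj q.2 * conj ζ') := by rw [ht']; ring
  rw [hx, hx']
  clear_value t t'
  have h3 : bet q * (Complex.I * Nf q * ((ζ + bet q * t) * (conj ζ' + bet' q * t') -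
      (ζ' + bet q * t') * (conj ζ + bet' q * t))) = 3 * conj q.2 *
      ((ζ + bet q * t) * (conj ζ' + bet' q * t') - (ζ' + bet q * t') * (conj ζ + bet' q * t)) := by
    linear_combination (Complex.I * ((ζ + bet q * t) * (conj ζ' + bet' q * t') -
      (ζ' + bet q * t') * (conj ζ + bet' q * t))) * h1 - (3 * conj q.2 *
      ((ζ + bet q * t) * (conj ζ' + bet' q * t') -
        (ζ' + bet q * t') * (conj ζ + bet' q * t))) * hI
  rw [h3, hb, hb']
  generalize (Nf q)⁻¹ = k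
  generalize conj q.1 = A
  generalize conj q.2 = B
  generalize q.1 = a
  generalize q.2 = b
  generalize conj ζ = z
  generalize conj ζ' = z'
  linear_combination (2 * B * (ζ * z' - ζ' * z) + 2 * b * 0) * hI

end Sphere

end Pool.Agent.helper65.CR
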