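import Pool.Agent.helper45.CR.Fibre

/-!
# Existence of local sections of `Φ : S → M`
-/

open Filter Topology Set Metric
open scoped ContDiff ComplexConjugate

namespace Pool.Agent.helper65.CR

/-- The function which is `μ ^ 3` at `Φ (μ A, μ B)`. -/
noncomputable def Cf (A B : ℂ) (x : Fin 4 → ℂ) : ℂ :=
  ((A * conj A + B * conj B)⁻¹) ^ 3 / 2 *
    ((x 0 + 3 * A ^ 2 * conj B ^ 2 * ((A * conj A + B * conj B)⁻¹) ^ 2) * conj A ^ 3 +
      3 * (x 1 + 3 * A * B * conj B ^ 2 * ((A * conj A + B * conj B)⁻¹) ^ 2) * conj A ^ 2 * conj B +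
      3 * (x 2 + 3 * B ^ 2 * conj B ^ 2 * ((A * conj A + B * conj B)⁻¹) ^ 2) * conj A * conj B ^ 2 +
      (x 3 - 3 * conj A * B * (A * conj A + B * conj B)⁻¹ *
        (1 + B * conj B * (A * conj A + B * conj B)⁻¹)) * conj B ^ 3)

theorem Cf_eq {A B μ : ℂ} (h : μ * conj μ * (A * conj A + B * conj B) = 1) :
    Cf A B (Φ (μ * A, μ * B)) = μ ^ 3 := by
  have hm : (A * conj A + B * conj B) ≠ 0 := by
    intro h0
    rw [h0] at h
    simp at h
  have hk : (A * conj A + B * conj B)⁻¹ = μ * conj μ := by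
    rw [inv_eq_iff_eq_inv]
    exact (eq_inv_of_mul_eq_one_right h)
  unfold Cf
  rw [hk]
  simp only [Φ, map_mul, Matrix.cons_val_zero, Matrix.cons_val]
  have h3 : (μ * conj μ * (A * conj A + B * conj B)) ^ 3 = 1 := by rw [h]; ring
  linear_combination μ ^ 3 * h3

theorem exists_locSec_of {A B : (Fin 4 → ℂ) → ℂ} (hA : ContDiff ℝ ∞ A) (hB : ContDiff ℝ ∞ B)
    (hAB : ∀ p ∈ S, p.1 * B (Φ p) = p.2 * A (Φ p)) {q : ℂ × ℂ} (hq : q ∈ S)
    (hm : A (Φ q) * conj (A (Φ q)) + B (Φ q) * conj (B (Φ q)) ≠ 0) : ∃ U Q, LocSec q U Q := by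
  -- the factor
  set m : (Fin 4 → ℂ) → ℂ := fun x => A x * conj (A x) + B x * conj (B x) with hmdef
  have hAc : ContDiff ℝ ∞ (fun x => conj (A x)) := contDiff_conj.comp hA
  have hBc : ContDiff ℝ ∞ (fun x => conj (B x)) := contDiff_conj.comp hB
  have hmc : ContDiff ℝ ∞ m := (hA.mul hAc).add (hB.mul hBc)
  have key : ∀ p ∈ S, m (Φ p) ≠ 0 → ∃ μ : ℂ, p = (μ * A (Φ p), μ * B (Φ p)) ∧
      μ * conj μ * m (Φ p) = 1 ∧ μ ≠ 0 := by
    intro p hp hmp
    have h1 : p.1 * conj p.1 + p.2 * conj p.2 = 1 := hp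
    have h2 := hAB p hp
    set a := A (Φ p) with ha
    set b := B (Φ p) with hb
    have hmp' : m (Φ p) = a * conj a + b * conj b := rfl
    rw [hmp'] at hmp ⊢
    have e1 : (p.1 * conj a + p.2 * conj b) / (a * conj a + b * conj b) * a = p.1 := by
      rw [div_mul_eq_mul_div, div_eq_iff hmp]
      linear_combination -conj b * h2
    have e2 : (p.1 * conj a + p.2 * conj b) / (a * conj a + b * conj b) * b = p.2 := by
      rw [div_mul_eq_mul_div, div_eq_iff hmp]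
      linear_combination conj a * h2
    have e1' := congrArg conj e1
    have e2' := congrArg conj e2
    rw [map_mul] at e1' e2'
    set μ := (p.1 * conj a + p.2 * conj b) / (a * conj a + b * conj b) with hμ
    have e3 : μ * conj μ * (a * conj a + b * conj b) = 1 := by
      calc μ * conj μ * (a * conj a + b * conj b)
          = (μ * a) * (conj μ * conj a) + (μ * b) * (conj μ * conj b) := by ring
        _ = 1 := by rw [e1, e2, e1', e2', h1]
    refine ⟨μ, ?_, e3, ?_⟩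
    · ext
      · exact e1.symm
      · exact e2.symm
    · rintro h0
      rw [h0] at e3
      simp at e3
  obtain ⟨μ₀, hq₀, hμ₀, hμ₀'⟩ := key q hq hm
  set C : (Fin 4 → ℂ) → ℂ := fun x => Cf (A x) (B x) x with hC
  have hCq : ∀ p ∈ S, m (Φ p) ≠ 0 → ∀ μ : ℂ, p = (μ * A (Φ p), μ * B (Φ p)) →
      μ * conj μ * m (Φ p) = 1 → C (Φ p) = μ ^ 3 := by
    intro p _ _ μ h1 h2
    have := Cf_eq (A := A (Φ p)) (B := B (Φ p)) (μ := μ) h2
    rw [← h1] at this
    exact this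
  have hx : ∀ i, ContDiff ℝ ∞ (fun x : Fin 4 → ℂ => x i) := fun i => contDiff_apply ℝ ℂ i
  have hCs : ContDiffOn ℝ ∞ C {x | m x ≠ 0} := by
    have hk : ContDiffOn ℝ ∞ (fun x => (A x * conj (A x) + B x * conj (B x))⁻¹) {x | m x ≠ 0} :=
      hmc.contDiffOn.inv (fun x hx => hx)
    have hA' := hA.contDiffOn (s := {x | m x ≠ 0})
    have hB' := hB.contDiffOn (s := {x | m x ≠ 0})
    have hAc' := hAc.contDiffOn (s := {x | m x ≠ 0})
    have hBc' := hBc.contDiffOn (s := {x | m x ≠ 0})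
    have hx' : ∀ i, ContDiffOn ℝ ∞ (fun x : Fin 4 → ℂ => x i) {x | m x ≠ 0} :=
      fun i => (hx i).contDiffOn
    have hc : ∀ c : ℂ, ContDiffOn ℝ ∞ (fun _ : Fin 4 → ℂ => c) {x | m x ≠ 0} :=
      fun c => contDiffOn_const
    show ContDiffOn ℝ ∞ (fun x => ((A x * conj (A x) + B x * conj (B x))⁻¹) ^ 3 / 2 *
      ((x 0 + 3 * A x ^ 2 * conj (B x) ^ 2 * ((A x * conj (A x) + B x * conj (B x))⁻¹) ^ 2) *
          conj (A x) ^ 3 +
        3 * (x 1 + 3 * A x * B x * conj (B x) ^ 2 *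
          ((A x * conj (A x) + B x * conj (B x))⁻¹) ^ 2) * conj (A x) ^ 2 * conj (B x) +
        3 * (x 2 + 3 * B x ^ 2 * conj (B x) ^ 2 *
          ((A x * conj (A x) + B x * conj (B x))⁻¹) ^ 2) * conj (A x) * conj (B x) ^ 2 +
        (x 3 - 3 * conj (A x) * B x * (A x * conj (A x) + B x * conj (B x))⁻¹ *
          (1 + B x * conj (B x) * (A x * conj (A x) + B x * conj (B x))⁻¹)) *
          conj (B x) ^ 3)) {x | m x ≠ 0}
    refine ContDiffOn.mul ((hk.pow 3).div_const 2)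
      (ContDiffOn.add (ContDiffOn.add (ContDiffOn.add ?_ ?_) ?_) ?_)
    · exact ((hx' 0).add ((((hc 3).mul (hA'.pow 2)).mul (hBc'.pow 2)).mul (hk.pow 2))).mul
        (hAc'.pow 3)
    · exact (((hc 3).mul ((hx' 1).add (((((hc 3).mul hA').mul hB').mul (hBc'.pow 2)).mul
        (hk.pow 2)))).mul (hAc'.pow 2)).mul hBc'
    · exact (((hc 3).mul ((hx' 2).add ((((hc 3).mul (hB'.pow 2)).mul (hBc'.pow 2)).mul
        (hk.pow 2)))).mul hAc').mul (hBc'.pow 2)
    · exact ((hx' 3).sub (((((hc 3).mul hAc').mul hB').mul hk).mul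
        ((hc 1).add ((hB'.mul hBc').mul hk)))).mul (hBc'.pow 3)
  have hopen : IsOpen {x | m x ≠ 0} := isOpen_ne_fun hmc.continuous continuous_const
  have hμ3 : μ₀ ^ 3 ≠ 0 := pow_ne_zero 3 hμ₀'
  have hG : ContDiffOn ℝ ∞ (fun x => C x / μ₀ ^ 3) {x | m x ≠ 0} := hCs.div_const _
  set U : Set (Fin 4 → ℂ) := {x | m x ≠ 0} ∩ (fun x => C x / μ₀ ^ 3) ⁻¹' Complex.slitPlane with hU
  have hUo : IsOpen U := hG.continuousOn.isOpen_inter_preimage hopen Complex.isOpen_slitPlane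
  set F : (Fin 4 → ℂ) → ℂ := fun x => μ₀ * Complex.exp (Complex.log (C x / μ₀ ^ 3) / 3) with hF
  have hFs : ContDiffOn ℝ ∞ F U := by
    have h1 : ContDiffOn ℝ ∞ (fun x => Complex.log (C x / μ₀ ^ 3)) U := by
      intro x hxU
      have h2 : ContDiffAt ℝ ∞ Complex.log (C x / μ₀ ^ 3) :=
        (Complex.contDiffAt_log hxU.2).restrict_scalars ℝ
      exact h2.comp_contDiffWithinAt x ((hG.mono inter_subset_left) x hxU)
    have h3 : ContDiff ℝ ∞ Complex.exp := (Complex.contDiff_exp (𝕜 := ℝ))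
    exact contDiffOn_const.mul (h3.comp_contDiffOn (h1.div_const 3))
  have hF3 : ∀ x ∈ U, C x ≠ 0 → F x ^ 3 = C x := by
    intro x _ hCx
    have hne : C x / μ₀ ^ 3 ≠ 0 := div_ne_zero hCx hμ3
    show (μ₀ * Complex.exp (Complex.log (C x / μ₀ ^ 3) / 3)) ^ 3 = C x
    rw [mul_pow, ← Complex.exp_nat_mul]
    have : ((3 : ℕ) : ℂ) * (Complex.log (C x / μ₀ ^ 3) / 3) = Complex.log (C x / μ₀ ^ 3) := by
      push_cast
      ring
    rw [this, Complex.exp_log hne]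
    field_simp
  have hCΦq : C (Φ q) = μ₀ ^ 3 := hCq q hq hm μ₀ hq₀ hμ₀
  refine ⟨U, fun x => (F x * A x, F x * B x), hUo, ?_, ?_, ?_, ?_⟩
  · refine ⟨hm, ?_⟩
    show C (Φ q) / μ₀ ^ 3 ∈ Complex.slitPlane
    rw [hCΦq, div_self hμ3]
    exact Complex.one_mem_slitPlane
  · exact (hFs.mul hA.contDiffOn).prodMk (hFs.mul hB.contDiffOn)
  · have hFq : F (Φ q) = μ₀ := by
      show μ₀ * Complex.exp (Complex.log (C (Φ q) / μ₀ ^ 3) / 3) = μ₀
      rw [hCΦq, div_self hμ3, Complex.log_one]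
      simp
    show (F (Φ q) * A (Φ q), F (Φ q) * B (Φ q)) = q
    rw [hFq]
    exact hq₀.symm
  · rintro x ⟨⟨p, hp, rfl⟩, hxU⟩
    obtain ⟨μ, hpμ, hμ, hμ'⟩ := key p hp hxU.1
    have hCp : C (Φ p) = μ ^ 3 := hCq p hp hxU.1 μ hpμ hμ
    have hCp0 : C (Φ p) ≠ 0 := by
      rw [hCp]
      exact pow_ne_zero 3 hμ'
    have hFp := hF3 (Φ p) hxU hCp0
    have hw : (F (Φ p) / μ) ^ 3 = 1 := by
      rw [div_pow, hFp, hCp]
      exact div_self (pow_ne_zero 3 hμ')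
    have hQ : ((F (Φ p) * A (Φ p), F (Φ p) * B (Φ p)) : ℂ × ℂ) =
        ((F (Φ p) / μ) * p.1, (F (Φ p) / μ) * p.2) := by
      have h1 : p.1 = μ * A (Φ p) := congrArg Prod.fst hpμ
      have h2 : p.2 = μ * B (Φ p) := congrArg Prod.snd hpμ
      ext
      · show F (Φ p) * A (Φ p) = (F (Φ p) / μ) * p.1
        rw [h1, div_mul_eq_mul_div, eq_div_iff hμ']
        ring
      · show F (Φ p) * B (Φ p) = (F (Φ p) / μ) * p.2
        rw [h2, div_mul_eq_mul_div, eq_div_iff hμ']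
        ring
    show ((F (Φ p) * A (Φ p), F (Φ p) * B (Φ p)) : ℂ × ℂ) ∈ S ∧
      Φ ((F (Φ p) * A (Φ p), F (Φ p) * B (Φ p)) : ℂ × ℂ) = Φ p
    rw [hQ]
    exact ⟨rot_mem_S (mul_conj_of_cube hw) hp, Φ_rot hw p⟩

theorem exists_locSec {q : ℂ × ℂ} (hq : q ∈ S) : ∃ U Q, LocSec q U Q := by
  have hx : ∀ i, ContDiff ℝ ∞ (fun x : Fin 4 → ℂ => x i) := fun i => contDiff_apply ℝ ℂ i
  have hpos : ∀ {A B : ℂ}, (A ≠ 0 ∨ B ≠ 0) → A * conj A + B * conj B ≠ 0 := by
    intro A B h h0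
    rw [Complex.mul_conj, Complex.mul_conj, ← Complex.ofReal_add, Complex.ofReal_eq_zero] at h0
    have h1 := Complex.normSq_nonneg A
    have h2 := Complex.normSq_nonneg B
    rcases h with h | h
    · exact h (Complex.normSq_eq_zero.mp (by linarith))
    · exact h (Complex.normSq_eq_zero.mp (by linarith))
  by_cases h2 : Φ q 2 = 0
  · refine exists_locSec_of (A := fun x => x 2 + 3) (B := fun x => x 3) ((hx 2).add contDiff_const)
      (hx 3) (fun p hp => (Φ_rel3 hp).symm) hq (hpos (Or.inl ?_))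
    show Φ q 2 + 3 ≠ 0
    rw [h2]
    norm_num
  · exact exists_locSec_of (A := fun x => x 1) (B := fun x => x 2) (hx 1) (hx 2)
      (fun p _ => (Φ_rel2 (q := p)).symm) hq (hpos (Or.inr h2))

/-- A cube root of unity close to `1` is `1`. -/
theorem eq_one_of_cube {w : ℂ} (hw : w ^ 3 = 1) (h : 0 < w.re) : w = 1 := by
  by_contra hne
  have h1 : (w - 1) * (w ^ 2 + w + 1) = 0 := by linear_combination hw
  have h2 : w ^ 2 + w + 1 = 0 := (mul_eq_zero.mp h1).resolve_left (sub_ne_zero.mpr hne)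
  have hr := congrArg Complex.re h2
  have hi := congrArg Complex.im h2
  simp [pow_two] at hr hi
  -- hr : re*re - im*im + re + 1 = 0, hi : re*im + im*re + im = 0
  have h3 : w.im * (2 * w.re + 1) = 0 := by linarith
  rcases mul_eq_zero.mp h3 with h4 | h4
  · rw [h4] at hr
    nlinarith
  · linarith

/-- The phase of `Q (Φ p)` relative to `p`. -/
theorem LocSec.phase {q : ℂ × ℂ} {U : Set (Fin 4 → ℂ)} {Q : (Fin 4 → ℂ) → ℂ × ℂ}
    (h : LocSec q U Q) {p : ℂ × ℂ} (hp : p ∈ S) (hpU : Φ p ∈ U)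
    (hre : 0 < ((Q (Φ p)).1 * conj p.1 + (Q (Φ p)).2 * conj p.2).re) : Q (Φ p) = p := by
  obtain ⟨h1, h2⟩ := h.maps (Φ p) ⟨⟨p, hp, rfl⟩, hpU⟩
  obtain ⟨w, hw, hQ⟩ := (Φ_eq_iff hp h1).mp h2.symm
  have h3 : p.1 * conj p.1 + p.2 * conj p.2 = 1 := hp
  have h4 : (Q (Φ p)).1 * conj p.1 + (Q (Φ p)).2 * conj p.2 = w := by
    rw [hQ]
    show w * p.1 * conj p.1 + w * p.2 * conj p.2 = w
    linear_combination w * h3
  rw [h4] at hre
  have h5 := eq_one_of_cube hw hre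
  rw [hQ, h5]
  simp

theorem LocSec.eventually_eq {q : ℂ × ℂ} {U : Set (Fin 4 → ℂ)} {Q : (Fin 4 → ℂ) → ℂ × ℂ}
    (h : LocSec q U Q) {x : Fin 4 → ℂ} (hx : x ∈ M ∩ U) :
    ∀ᶠ p in 𝓝[S] (Q x), Q (Φ p) = p := by
  obtain ⟨h1, h2⟩ := h.maps x hx
  have hQc : ContinuousAt Q x := (h.smooth.continuousOn).continuousAt (h.isOpen.mem_nhds hx.2)
  have hΦc : ContinuousAt Φ (Q x) := contDiff_Φ.continuous.continuousAt
  have hQΦ : ContinuousAt (fun p => Q (Φ p)) (Q x) := by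
    apply ContinuousAt.comp _ hΦc
    rw [h2]
    exact hQc
  have hc : ContinuousAt (fun p : ℂ × ℂ =>
      ((Q (Φ p)).1 * conj p.1 + (Q (Φ p)).2 * conj p.2).re) (Q x) := by
    apply Complex.continuous_re.continuousAt.comp
    refine ContinuousAt.add ?_ ?_
    · exact (continuous_fst.continuousAt.comp hQΦ).mul
        ((Complex.continuous_conj.comp continuous_fst).continuousAt)
    · exact (continuous_snd.continuousAt.comp hQΦ).mul
        ((Complex.continuous_conj.comp continuous_snd).continuousAt)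
  have hpos : 0 < ((Q (Φ (Q x))).1 * conj (Q x).1 + (Q (Φ (Q x))).2 * conj (Q x).2).re := by
    rw [h2]
    have : (Q x).1 * conj (Q x).1 + (Q x).2 * conj (Q x).2 = 1 := h1
    rw [this]
    simp
  have e1 : ∀ᶠ p in 𝓝 (Q x), 0 < ((Q (Φ p)).1 * conj p.1 + (Q (Φ p)).2 * conj p.2).re :=
    hc.eventually (lt_mem_nhds hpos)
  have e2 : ∀ᶠ p in 𝓝 (Q x), Φ p ∈ U := by
    apply hΦc.eventually
    rw [h2]
    exact h.isOpen.mem_nhds hx.2
  rw [eventually_nhdsWithin_iff]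
  filter_upwards [e1, e2] with p hp1 hp2 hpS
  exact h.phase hpS hp2 hp1

end Pool.Agent.helper65.CR
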