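import Pool.Agent.helper45.CR.Closed

/-! Everything about `M = Φ(S)` as a closed CR submanifold of `ℂ⁴`. -/
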