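import Pool.Agent.helper45.CR.Section

/-!
# The tangent spaces of `M`
-/

open Filter Topology Set Metric
open scoped ContDiff ComplexConjugate

namespace Pool.Agent.helper65.CR

/-- The coordinates of a vector of `ℂ²` in the frame at `q`. -/
theorem tv_coords {q v : ℂ × ℂ} (hq : q ∈ S) (hv : (conj q.1 * v.1 + conj q.2 * v.2).re = 0) :
    tv q (q.1 * v.2 - q.2 * v.1) (conj q.1 * v.1 + conj q.2 * v.2).im = v := by
  have h1 : q.1 * conj q.1 + q.2 * conj q.2 = 1 := hq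
  have h2 : Complex.I * ((conj q.1 * v.1 + conj q.2 * v.2).im : ℂ) =
      conj q.1 * v.1 + conj q.2 * v.2 := by
    apply Complex.ext
    · rw [hv]
      simp
    · simp
  unfold tv
  rw [h2]
  ext
  · show -(q.1 * v.2 - q.2 * v.1) * conj q.2 + (conj q.1 * v.1 + conj q.2 * v.2) * q.1 = v.1
    linear_combination v.1 * h1
  · show (q.1 * v.2 - q.2 * v.1) * conj q.1 + (conj q.1 * v.1 + conj q.2 * v.2) * q.2 = v.2
    linear_combination v.2 * h1

theorem tv_re {q : ℂ × ℂ} (hq : q ∈ S) (ζ : ℂ) (x : ℝ) :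
    conj q.1 * (tv q ζ x).1 + conj q.2 * (tv q ζ x).2 = Complex.I * x := by
  have h1 : q.1 * conj q.1 + q.2 * conj q.2 = 1 := hq
  simp only [tv]
  linear_combination Complex.I * x * h1

theorem tv_lam {q : ℂ × ℂ} (hq : q ∈ S) (ζ : ℂ) (x : ℝ) :
    q.1 * (tv q ζ x).2 - q.2 * (tv q ζ x).1 = ζ := by
  have h1 : q.1 * conj q.1 + q.2 * conj q.2 = 1 := hq
  simp only [tv]
  linear_combination ζ * h1

theorem tv_injective {q : ℂ × ℂ} (hq : q ∈ S) {ζ ζ' : ℂ} {r r' : ℝ}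
    (h : tv q ζ r = tv q ζ' r') : ζ = ζ' ∧ r = r' := by
  constructor
  · rw [← tv_lam hq ζ r, ← tv_lam hq ζ' r', h]
  · have h1 := tv_re hq ζ r
    rw [h, tv_re hq ζ' r'] at h1
    have := mul_left_cancel₀ Complex.I_ne_zero h1
    exact_mod_cast this.symm

theorem tv_norm {q : ℂ × ℂ} (hq : q ∈ S) (ζ : ℂ) (x : ℝ) :
    (tv q ζ x).1 * conj (tv q ζ x).1 + (tv q ζ x).2 * conj (tv q ζ x).2 =
      ζ * conj ζ + (x : ℂ) ^ 2 := by
  have h1 : q.1 * conj q.1 + q.2 * conj q.2 = 1 := hq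
  simp only [tv, map_add, map_mul, map_neg, Complex.conj_conj, Complex.conj_I, Complex.conj_ofReal]
  linear_combination (ζ * conj ζ + (x : ℂ) ^ 2) * h1 -
    (x : ℂ) ^ 2 * (q.1 * conj q.1 + q.2 * conj q.2) * Complex.I_sq

/-- The curves in the sphere. -/
theorem exists_curve {q : ℂ × ℂ} (hq : q ∈ S) (ζ : ℂ) (r : ℝ) :
    ∃ γ : ℝ → ℂ × ℂ, γ 0 = q ∧ HasDerivAt γ (tv q ζ r) 0 ∧ ∀ s, γ s ∈ S := by
  set k : ℝ := Complex.normSq ζ + r ^ 2 with hk
  have hk0 : 0 ≤ k := add_nonneg (Complex.normSq_nonneg ζ) (sq_nonneg r)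
  set f : ℝ → ℝ := fun s => (Real.sqrt (1 + s ^ 2 * k))⁻¹ with hf
  have hpos : ∀ s : ℝ, 0 < 1 + s ^ 2 * k := fun s => by positivity
  have hf0 : f 0 = 1 := by simp [hf]
  have hfd : HasDerivAt f 0 0 := by
    have h1 : HasDerivAt (fun s : ℝ => 1 + s ^ 2 * k) 0 0 := by
      have := (((hasDerivAt_id (0 : ℝ)).pow 2).mul_const k).const_add 1
      simpa using this
    have h2 : HasDerivAt (fun s : ℝ => Real.sqrt (1 + s ^ 2 * k)) 0 0 := by
      have := h1.sqrt (hpos 0).ne'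
      simpa using this
    have h3 := h2.inv (Real.sqrt_ne_zero'.mpr (hpos 0))
    have h4 : HasDerivAt f (-0 / Real.sqrt (1 + (0 : ℝ) ^ 2 * k) ^ 2) 0 := h3
    simpa using h4
  refine ⟨fun s => f s • (q + s • tv q ζ r), ?_, ?_, ?_⟩
  · simp [hf0]
  · have h4 : HasDerivAt (fun s : ℝ => q + s • tv q ζ r) (tv q ζ r) 0 := by
      have := ((hasDerivAt_id (0 : ℝ)).smul_const (tv q ζ r)).const_add q
      simpa using this
    have h5 := hfd.smul h4
    refine h5.congr_deriv ?_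
    simp [hf0]
  · intro s
    have h1 : q.1 * conj q.1 + q.2 * conj q.2 = 1 := hq
    have h2 := tv_re hq ζ r
    have h3 := tv_norm hq ζ r
    have h2' := congrArg conj h2
    simp only [map_add, map_mul, Complex.conj_conj, Complex.conj_I, Complex.conj_ofReal] at h2'
    have hkc : ζ * conj ζ + (r : ℂ) ^ 2 = (k : ℂ) := by
      rw [hk, Complex.mul_conj]
      push_cast
      ring
    rw [hkc] at h3
    have hfs : (f s : ℂ) ^ 2 * (1 + (s : ℂ) ^ 2 * k) = 1 := by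
      have : f s ^ 2 * (1 + s ^ 2 * k) = 1 := by
        simp only [hf]
        rw [inv_pow, Real.sq_sqrt (hpos s).le]
        exact inv_mul_cancel₀ (hpos s).ne'
      exact_mod_cast this
    show (f s • (q + s • tv q ζ r)).1 * conj (f s • (q + s • tv q ζ r)).1 +
      (f s • (q + s • tv q ζ r)).2 * conj (f s • (q + s • tv q ζ r)).2 = 1
    simp only [Prod.smul_fst, Prod.smul_snd, Prod.fst_add, Prod.snd_add, Complex.real_smul,
      map_mul, map_add, Complex.conj_ofReal]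
    generalize (tv q ζ r).1 = v at *
    generalize (tv q ζ r).2 = w at *
    linear_combination hfs + (f s : ℂ) ^ 2 * h1 + (f s : ℂ) ^ 2 * s * (h2 + h2') +
      (f s : ℂ) ^ 2 * (s : ℂ) ^ 2 * h3

theorem LocSec.fderiv_tv {q : ℂ × ℂ} {U : Set (Fin 4 → ℂ)} {Q : (Fin 4 → ℂ) → ℂ × ℂ}
    (h : LocSec q U Q) {x : Fin 4 → ℂ} (hx : x ∈ M ∩ U) (ζ : ℂ) (r : ℝ) :
    fderiv ℝ Q x (dΦ (Q x) (tv (Q x) ζ r)) = tv (Q x) ζ r := by
  obtain ⟨h1, h2⟩ := h.maps x hx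
  obtain ⟨γ, hγ0, hγd, hγS⟩ := exists_curve h1 ζ r
  have hev := h.eventually_eq hx
  have hγt : Tendsto γ (𝓝 0) (𝓝[S] (Q x)) := by
    rw [tendsto_nhdsWithin_iff]
    refine ⟨?_, Eventually.of_forall hγS⟩
    have := hγd.continuousAt.tendsto
    rwa [hγ0] at this
  have h3 : ∀ᶠ s in 𝓝 (0 : ℝ), Q (Φ (γ s)) = γ s := hγt.eventually hev
  have hQd : HasFDerivAt Q (fderiv ℝ Q x) (Φ (γ 0)) := by
    rw [hγ0, h2]
    exact ((h.smooth.contDiffAt (h.isOpen.mem_nhds hx.2)).differentiableAt (by simp)).hasFDerivAt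
  have h4 := hasDerivAt_Φ hγd
  have h5 := hQd.comp_hasDerivAt (0 : ℝ) h4
  have h6 : HasDerivAt (Q ∘ fun s => Φ (γ s)) (tv (Q x) ζ r) 0 :=
    hγd.congr_of_eventuallyEq h3
  have h7 := h5.unique h6
  rwa [hγ0] at h7

theorem dΦ_tv_injective {q : ℂ × ℂ} (hq : q ∈ S) {ζ ζ' : ℂ} {r r' : ℝ}
    (h : dΦ q (tv q ζ r) = dΦ q (tv q ζ' r')) : ζ = ζ' ∧ r = r' := by
  obtain ⟨U, Q, hQ⟩ := exists_locSec hq
  have hx : Φ q ∈ M ∩ U := ⟨⟨q, hq, rfl⟩, hQ.mem⟩
  have h1 := hQ.fderiv_tv hx ζ r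
  have h2 := hQ.fderiv_tv hx ζ' r'
  rw [hQ.base] at h1 h2
  rw [h, h2] at h1
  exact (tv_injective hq h1.symm)

theorem isTangent_iff {q : ℂ × ℂ} (hq : q ∈ S) (v : Fin 4 → ℂ) :
    IsTangent M (Φ q) v ↔ ∃ (ζ : ℂ) (r : ℝ), v = dΦ q (tv q ζ r) := by
  constructor
  · rintro ⟨c, hc0, hcd, hcM⟩
    obtain ⟨U, Q, hQ⟩ := exists_locSec hq
    have hcU : ∀ᶠ t in 𝓝 (0 : ℝ), c t ∈ U := by
      apply hcd.continuousAt.eventually
      rw [hc0]
      exact hQ.isOpen.mem_nhds hQ.mem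
    have hev : ∀ᶠ t in 𝓝 (0 : ℝ), Q (c t) ∈ S ∧ Φ (Q (c t)) = c t := by
      filter_upwards [hcU, hcM] with t h1 h2
      exact hQ.maps _ ⟨h2, h1⟩
    have hQd : HasFDerivAt Q (fderiv ℝ Q (Φ q)) (c 0) := by
      rw [hc0]
      exact ((hQ.smooth.contDiffAt (hQ.isOpen.mem_nhds hQ.mem)).differentiableAt
        (by simp)).hasFDerivAt
    have h4 : HasDerivAt (fun t => Q (c t)) (fderiv ℝ Q (Φ q) v) 0 :=
      hQd.comp_hasDerivAt (0 : ℝ) hcd
    set w := fderiv ℝ Q (Φ q) v with hw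
    have hQ0 : Q (c 0) = q := by rw [hc0]; exact hQ.base
    have h5 := hasDerivAt_Φ h4
    rw [hQ0] at h5
    have h6 : HasDerivAt (fun t => Φ (Q (c t))) v 0 := by
      refine hcd.congr_of_eventuallyEq ?_
      filter_upwards [hev] with t ht
      exact ht.2
    have h7 : dΦ q w = v := h5.unique h6
    -- `w` is tangent to the sphere
    have h8 : (conj q.1 * w.1 + conj q.2 * w.2).re = 0 := by
      have ha : HasDerivAt (fun t => (Q (c t)).1) w.1 0 := h4.fst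
      have hb : HasDerivAt (fun t => (Q (c t)).2) w.2 0 := h4.snd
      have h9 : HasDerivAt (fun t => (Q (c t)).1 * conj (Q (c t)).1 +
          (Q (c t)).2 * conj (Q (c t)).2) (w.1 * conj (Q (c 0)).1 + (Q (c 0)).1 * conj w.1 +
            (w.2 * conj (Q (c 0)).2 + (Q (c 0)).2 * conj w.2)) 0 :=
        (ha.mul (HasDerivAt.conj' ha)).add (hb.mul (HasDerivAt.conj' hb))
      have h10 : HasDerivAt (fun t => (Q (c t)).1 * conj (Q (c t)).1 +
          (Q (c t)).2 * conj (Q (c t)).2) (0 : ℂ) 0 := by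
        refine (hasDerivAt_const (0 : ℝ) (1 : ℂ)).congr_of_eventuallyEq ?_
        filter_upwards [hev] with t ht
        exact ht.1
      have h11 := h9.unique h10
      rw [hQ0] at h11
      have h12 := congrArg Complex.re h11
      simp at h12
      simp
      linarith
    refine ⟨q.1 * w.2 - q.2 * w.1, (conj q.1 * w.1 + conj q.2 * w.2).im, ?_⟩
    rw [tv_coords hq h8, h7]
  · rintro ⟨ζ, r, rfl⟩
    obtain ⟨γ, hγ0, hγd, hγS⟩ := exists_curve hq ζ r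
    refine ⟨fun s => Φ (γ s), congrArg Φ hγ0, ?_,
      Eventually.of_forall fun s => ⟨γ s, hγS s, rfl⟩⟩
    have := hasDerivAt_Φ hγd
    rwa [hγ0] at this

/-- The tangent vectors of `M` in terms of `P` and `PT`. -/
theorem isTangent_iff' {q : ℂ × ℂ} (hq : q ∈ S) (v : Fin 4 → ℂ) :
    IsTangent M (Φ q) v ↔ ∃ (ζ : ℂ) (y : ℝ), v = ζ • P q + (y : ℂ) • PT q := by
  rw [isTangent_iff hq]
  constructor
  · rintro ⟨ζ, r, rfl⟩
    exact ⟨ζ, r + 2 * (q.2 * ζ).im, dΦ_tv hq ζ r⟩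
  · rintro ⟨ζ, y, rfl⟩
    refine ⟨ζ, y - 2 * (q.2 * ζ).im, ?_⟩
    rw [dΦ_tv hq]
    congr 3
    ring

theorem P_PT_injective {q : ℂ × ℂ} (hq : q ∈ S) {ζ ζ' : ℂ} {y y' : ℝ}
    (h : ζ • P q + (y : ℂ) • PT q = ζ' • P q + (y' : ℂ) • PT q) : ζ = ζ' ∧ y = y' := by
  have h1 := dΦ_tv hq ζ (y - 2 * (q.2 * ζ).im)
  have h2 := dΦ_tv hq ζ' (y' - 2 * (q.2 * ζ').im)
  rw [sub_add_cancel] at h1 h2
  rw [← h1, ← h2] at h
  obtain ⟨h3, h4⟩ := dΦ_tv_injective hq h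
  refine ⟨h3, ?_⟩
  rw [h3] at h4
  linarith

theorem isHolTangent_iff {q : ℂ × ℂ} (hq : q ∈ S) (v : Fin 4 → ℂ) :
    IsHolTangent M (Φ q) v ↔ ∃ ζ : ℂ, v = ζ • P q := by
  constructor
  · rintro ⟨h1, h2⟩
    obtain ⟨ζ, y, rfl⟩ := (isTangent_iff' hq v).mp h1
    obtain ⟨ζ', y', h3⟩ := (isTangent_iff' hq _).mp h2
    by_cases hy : y = 0
    · exact ⟨ζ, by rw [hy]; simp⟩
    · exfalso
      have hne : (y' : ℂ) - Complex.I * y ≠ 0 := by
        intro h0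
        have := congrArg Complex.im h0
        simp at this
        exact hy this
      have h4 : PT q = ((Complex.I * ζ - ζ') / (y' - Complex.I * y)) • P q := by
        have h5 : (y' - Complex.I * y) • PT q = (Complex.I * ζ - ζ') • P q := by
          rw [smul_add, smul_smul, smul_smul] at h3
          rw [sub_smul, sub_smul, sub_eq_sub_iff_add_eq_add, add_comm, ← h3]
        rw [div_eq_inv_mul, mul_smul, ← h5, smul_smul, inv_mul_cancel₀ hne, one_smul]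
      have h6 : (0 : ℂ) • P q + ((1 : ℝ) : ℂ) • PT q =
          ((Complex.I * ζ - ζ') / (y' - Complex.I * y)) • P q + ((0 : ℝ) : ℂ) • PT q := by
        rw [h4]
        simp
      have := (P_PT_injective hq h6).2
      norm_num at this
  · rintro ⟨ζ, rfl⟩
    refine ⟨(isTangent_iff' hq _).mpr ⟨ζ, 0, by simp⟩,
      (isTangent_iff' hq _).mpr ⟨Complex.I * ζ, 0, by simp [smul_smul]⟩⟩

theorem P_ne_zero {q : ℂ × ℂ} (hq : q ∈ S) : P q ≠ 0 := by
  intro h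
  have h1 : (1 : ℂ) • P q + ((0 : ℝ) : ℂ) • PT q = (0 : ℂ) • P q + ((0 : ℝ) : ℂ) • PT q := by
    rw [h]
    simp
  exact one_ne_zero (P_PT_injective hq h1).1

end Pool.Agent.helper65.CR
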